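import Pool.Agent.Lib.MP_ca7d12_nt.Leo.Defs

set_option autoImplicit false

namespace Pool.Agent.MP_ca7d12_nt

namespace Leo

open NumberField

/-- `p ^ (2 m) / m!` modulo `p ^ K`. -/
private theorem approx_coef (p : ℕ) (hp : p.Prime) (K m : ℕ) :
    ∃ e s : ℤ, (p : ℤ) ^ m ∣ e ∧ e * (m.factorial : ℤ) = (p : ℤ) ^ (2 * m) + (p : ℤ) ^ K * s := by
  have := Fact.mk hp
  obtain ⟨v, m', hm', hfac⟩ := Nat.exists_eq_pow_mul_and_not_dvd (Nat.factorial_ne_zero m) p
    hp.ne_one
  have hv : v ≤ m := by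
    have h1 : v ≤ padicValNat p m.factorial :=
      (padicValNat_dvd_iff_le (Nat.factorial_ne_zero m)).1 (Dvd.intro _ hfac.symm)
    have h2 := sub_one_mul_padicValNat_factorial (p := p) m
    have h3 : 1 ≤ p - 1 := by have := hp.two_le; omega
    have h4 : padicValNat p m.factorial ≤ (p - 1) * padicValNat p m.factorial :=
      Nat.le_mul_of_pos_left _ h3
    omega
  have hco : IsCoprime (m' : ℤ) ((p ^ K : ℕ) : ℤ) := by
    rw [Nat.isCoprime_iff_coprime]
    exact Nat.Coprime.pow_right K ((Nat.Prime.coprime_iff_not_dvd hp).2 hm').symm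
  obtain ⟨a, b, hab⟩ := hco
  push_cast at hab
  refine ⟨(p : ℤ) ^ (2 * m - v) * a, -(b * (p : ℤ) ^ (2 * m)), ?_, ?_⟩
  · exact Dvd.dvd.mul_right (pow_dvd_pow _ (by omega)) _
  · rw [hfac]
    push_cast
    have h1 : (p : ℤ) ^ (2 * m - v) * (p : ℤ) ^ v = (p : ℤ) ^ (2 * m) := by
      rw [← pow_add]
      congr 1
      omega
    calc (p : ℤ) ^ (2 * m - v) * a * ((p : ℤ) ^ v * (m' : ℤ)) =
        ((p : ℤ) ^ (2 * m - v) * (p : ℤ) ^ v) * (a * m') := by ring
      _ = (p : ℤ) ^ (2 * m) * (1 - b * (p : ℤ) ^ K) := by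
        rw [h1]
        congr 1
        linarith
      _ = _ := by ring

private theorem approx_one {R : Type*} [CommRing R] (p : ℕ) (hp : p.Prime) (h : R) (K : ℕ) :
    ∃ E : Polynomial R,
      (∀ z : ℕ, ∃ w : R, (1 + (p : R) ^ 2 * h) ^ z = E.eval (z : R) + (p : R) ^ K * w) ∧
      ∀ r : ℕ, (p : R) ^ r ∣ E.coeff r := by
  choose e s he hes using approx_coef p hp K
  refine ⟨∑ m ∈ Finset.range K, Polynomial.C ((e m : R) * h ^ m) * descPochhammer R m,
    fun z => ?_, fun r => ?_⟩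
  · have h1 : (1 + (p : R) ^ 2 * h) ^ z = ∑ m ∈ Finset.range (max (z + 1) K),
        ((p : R) ^ 2 * h) ^ m * (z.choose m : R) := by
      rw [add_comm, add_pow]
      have h2 : ∀ m ∈ Finset.range (z + 1), ((p : R) ^ 2 * h) ^ m * 1 ^ (z - m) * (z.choose m : R) =
          ((p : R) ^ 2 * h) ^ m * (z.choose m : R) := fun m _ => by rw [one_pow, mul_one]
      rw [Finset.sum_congr rfl h2]
      refine Finset.sum_subset (Finset.range_mono (le_max_left _ _)) fun m _ hm => ?_
      rw [Nat.choose_eq_zero_of_lt (by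
        rw [Finset.mem_range] at hm
        omega), Nat.cast_zero, mul_zero]
    have h3 : ∀ m, ∃ w : R, ((p : R) ^ 2 * h) ^ m * (z.choose m : R) =
        (Polynomial.C ((e m : R) * h ^ m) * descPochhammer R m).eval (z : R) + (p : R) ^ K * w := by
      intro m
      refine ⟨-((s m : R) * (z.choose m : R) * h ^ m), ?_⟩
      rw [Polynomial.eval_mul, Polynomial.eval_C, descPochhammer_eval_eq_descFactorial,
        Nat.descFactorial_eq_factorial_mul_choose]
      have h4 := congrArg (fun x : ℤ => (x : R)) (hes m)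
      push_cast at h4 ⊢
      have h5 : (e m : R) * h ^ m * ((m.factorial : R) * (z.choose m : R)) =
          ((e m : R) * (m.factorial : R)) * (h ^ m * (z.choose m : R)) := by ring
      rw [h5, h4]
      ring
    choose w hw using h3
    have h6 : ∀ m, K ≤ m → (p : R) ^ K ∣ ((p : R) ^ 2 * h) ^ m * (z.choose m : R) := by
      intro m hm
      rw [mul_pow, ← pow_mul, mul_assoc]
      exact Dvd.dvd.mul_right (pow_dvd_pow _ (by omega)) _
    have h7 : (p : R) ^ K ∣ ∑ m ∈ Finset.Ico K (max (z + 1) K),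
        ((p : R) ^ 2 * h) ^ m * (z.choose m : R) :=
      Finset.dvd_sum fun m hm => h6 m (Finset.mem_Ico.1 hm).1
    obtain ⟨u, hu⟩ := h7
    refine ⟨∑ m ∈ Finset.range K, w m + u, ?_⟩
    rw [h1, ← Finset.sum_range_add_sum_Ico _ (le_max_right (z + 1) K), hu,
      Finset.sum_congr rfl fun m _ => hw m, Finset.sum_add_distrib, ← Finset.mul_sum,
      Polynomial.eval_finsetSum]
    ring
  · rw [Polynomial.finsetSum_coeff]
    refine Finset.dvd_sum fun m _ => ?_
    rw [Polynomial.coeff_C_mul]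
    by_cases hrm : r ≤ m
    · have h1 : (p : R) ^ m ∣ (e m : R) := by
        obtain ⟨y, hy⟩ := he m
        refine ⟨(y : R), ?_⟩
        rw [hy]
        push_cast
        ring
      exact Dvd.dvd.mul_right (Dvd.dvd.mul_right ((pow_dvd_pow _ hrm).trans h1) _) _
    · have h1 : (descPochhammer R m).coeff r = 0 := by
        rw [← descPochhammer_map (Int.castRingHom R), Polynomial.coeff_map,
          Polynomial.coeff_eq_zero_of_natDegree_lt, map_zero]
        rw [descPochhammer_natDegree]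
        omega
      rw [h1, mul_zero]
      exact dvd_zero _

/-- Approximation of an exponential polynomial with base `1 + p ^ 2 h` by a polynomial with
coefficients tending to zero. -/
theorem approx {R : Type*} [CommRing R] (p : ℕ) (hp : p.Prime) (h : R) (T₀ T₁ : ℕ)
    (c : Fin T₀ → Fin T₁ → R) (K : ℕ) :
    ∃ F : Polynomial R,
      (∀ z : ℕ, ∃ w : R, ∑ i : Fin T₀, ∑ j : Fin T₁,
        c i j * (z : R) ^ (i : ℕ) * (1 + (p : R) ^ 2 * h) ^ ((j : ℕ) * z) =
          F.eval (z : R) + (p : R) ^ K * w) ∧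
      ∀ n : ℕ, (p : R) ^ (n - T₀) ∣ F.coeff n := by
  have h0 : ∀ j : ℕ, ∃ E : Polynomial R,
      (∀ z : ℕ, ∃ w : R, (1 + (p : R) ^ 2 * h) ^ (j * z) = E.eval (z : R) + (p : R) ^ K * w) ∧
      ∀ r : ℕ, (p : R) ^ r ∣ E.coeff r := by
    intro j
    have h1 : (p : R) ^ 2 ∣ (1 + (p : R) ^ 2 * h) ^ j - 1 := by
      have h2 := sub_dvd_pow_sub_pow (1 + (p : R) ^ 2 * h) 1 j
      rw [one_pow, add_sub_cancel_left] at h2
      exact (Dvd.intro _ rfl).trans h2
    obtain ⟨hj, hhj⟩ := h1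
    have h3 : (1 + (p : R) ^ 2 * h) ^ j = 1 + (p : R) ^ 2 * hj := by
      rw [← hhj]
      ring
    obtain ⟨E, hE1, hE2⟩ := approx_one p hp hj K
    refine ⟨E, fun z => ?_, hE2⟩
    rw [pow_mul, h3]
    exact hE1 z
  choose E hE1 hE2 using h0
  choose w hw using hE1
  refine ⟨∑ i : Fin T₀, ∑ j : Fin T₁, Polynomial.C (c i j) * (Polynomial.X ^ (i : ℕ) * E j),
    fun z => ⟨∑ i : Fin T₀, ∑ j : Fin T₁, c i j * (z : R) ^ (i : ℕ) * w j z, ?_⟩, fun n => ?_⟩
  · rw [Polynomial.eval_finsetSum, Finset.mul_sum, ← Finset.sum_add_distrib]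
    refine Finset.sum_congr rfl fun i _ => ?_
    rw [Polynomial.eval_finsetSum, Finset.mul_sum, ← Finset.sum_add_distrib]
    refine Finset.sum_congr rfl fun j _ => ?_
    rw [hw j z]
    simp only [Polynomial.eval_mul, Polynomial.eval_C, Polynomial.eval_pow, Polynomial.eval_X]
    ring
  · rw [Polynomial.finsetSum_coeff]
    refine Finset.dvd_sum fun i _ => ?_
    rw [Polynomial.finsetSum_coeff]
    refine Finset.dvd_sum fun j _ => ?_
    rw [Polynomial.coeff_C_mul, Polynomial.coeff_X_pow_mul']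
    split_ifs with hin
    · refine Dvd.dvd.mul_left ((pow_dvd_pow _ ?_).trans (hE2 j (n - i))) _
      have := i.2
      omega
    · rw [mul_zero]
      exact dvd_zero _

end Leo

end Pool.Agent.MP_ca7d12_nt
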