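import Pool.Agent.Lib.MP_ca7d12_nt.Leo.Defs

set_option autoImplicit false

namespace Pool.Agent.MP_ca7d12_nt

namespace Leo

open NumberField

private theorem XYb (a b M : ℤ) (ha : 0 ≤ a) (hb : 0 ≤ b) (haM : a ≤ M) (hbM : b ≤ M) (i : ℕ) :
    |(XY a b i).1| ≤ (2 * M) ^ i ∧ |(XY a b i).2| ≤ (2 * M) ^ i := by
  have hM : 0 ≤ M := ha.trans haM
  induction i with
  | zero => simp [XY_zero]
  | succ i ih =>
    obtain ⟨h1, h2⟩ := ih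
    rw [XY_succ]
    have e : (2 * M) ^ (i + 1) = M * (2 * M) ^ i + M * (2 * M) ^ i := by ring
    rw [e]
    refine ⟨?_, ?_⟩
    · refine (abs_sub _ _).trans (add_le_add ?_ ?_)
      · rw [abs_mul]
        exact mul_le_mul (by rw [abs_of_nonneg ha]; exact haM) h1 (abs_nonneg _) hM
      · rw [abs_mul]
        exact mul_le_mul (by rw [abs_of_nonneg hb]; exact hbM) h2 (abs_nonneg _) hM
    · refine (abs_add_le _ _).trans (add_le_add ?_ ?_)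
      · rw [abs_mul]
        exact mul_le_mul (by rw [abs_of_nonneg hb]; exact hbM) h1 (abs_nonneg _) hM
      · rw [abs_mul]
        exact mul_le_mul (abs_le.2 ⟨by linarith, by linarith⟩) h2 (abs_nonneg _) hM

private theorem gen {R : Type*} [CommRing R] (φ : R →+* ℝ) (u w : R) (B : ℝ) (hB : 1 ≤ B)
    (hU : |φ u| ≤ B) (hW : |φ w| ≤ B) (T₀ T₁ M : ℕ) (hM : 1 ≤ M)
    (c : Fin T₀ → Fin T₁ → R) (H : ℝ) (hc : ∀ i j, |φ (c i j)| ≤ H)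
    (a b : ℕ) (ha : a ≤ M) (hb : b ≤ M) (Z : ℕ → ℤ) (hZ : ∀ i, |Z i| ≤ (2 * (M : ℤ)) ^ i) :
    |φ (∑ i : Fin T₀, ∑ j : Fin T₁, c i j * ((Z (i : ℕ) : ℤ) : R) * (u ^ a * w ^ b) ^ (j : ℕ))| ≤
      (T₀ : ℝ) * T₁ * H * (2 * (M : ℝ)) ^ T₀ * B ^ (2 * M * T₁) := by
  have hM1 : (1 : ℝ) ≤ M := by exact_mod_cast hM
  have h2M : (1 : ℝ) ≤ 2 * (M : ℝ) := by linarith
  have hB0 : (0 : ℝ) ≤ B := by linarith
  have hterm : ∀ (i : Fin T₀) (j : Fin T₁),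
      |φ (c i j * ((Z (i : ℕ) : ℤ) : R) * (u ^ a * w ^ b) ^ (j : ℕ))| ≤
        H * (2 * (M : ℝ)) ^ T₀ * B ^ (2 * M * T₁) := by
    intro i j
    have hH : 0 ≤ H := (abs_nonneg _).trans (hc i j)
    rw [map_mul, map_mul, map_pow, map_mul, map_pow, map_pow, map_intCast, abs_mul, abs_mul,
      abs_pow, abs_mul, abs_pow, abs_pow]
    have h1 : |((Z (i : ℕ) : ℤ) : ℝ)| ≤ (2 * (M : ℝ)) ^ T₀ := by
      have h3 : |((Z (i : ℕ) : ℤ) : ℝ)| ≤ (2 * (M : ℝ)) ^ (i : ℕ) := by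
        have := hZ (i : ℕ)
        exact_mod_cast this
      exact h3.trans (pow_le_pow_right₀ h2M i.2.le)
    have h2 : (|φ u| ^ a * |φ w| ^ b) ^ (j : ℕ) ≤ B ^ (2 * M * T₁) := by
      have h4 : |φ u| ^ a * |φ w| ^ b ≤ B ^ (a + b) := by
        rw [pow_add]
        exact mul_le_mul (pow_le_pow_left₀ (abs_nonneg _) hU a)
          (pow_le_pow_left₀ (abs_nonneg _) hW b) (by positivity) (by positivity)
      have h5 : (|φ u| ^ a * |φ w| ^ b) ^ (j : ℕ) ≤ (B ^ (a + b)) ^ (j : ℕ) :=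
        pow_le_pow_left₀ (by positivity) h4 _
      rw [← pow_mul] at h5
      refine h5.trans (pow_le_pow_right₀ hB ?_)
      exact Nat.mul_le_mul (by omega) j.2.le
    have h0 : (0 : ℝ) ≤ (2 * (M : ℝ)) ^ T₀ := by positivity
    exact mul_le_mul (mul_le_mul (hc i j) h1 (abs_nonneg _) hH) h2 (by positivity)
      (mul_nonneg hH h0)
  rw [map_sum]
  refine (Finset.abs_sum_le_sum_abs _ _).trans ?_
  have hin : ∀ i : Fin T₀, |φ (∑ j : Fin T₁, c i j * ((Z (i : ℕ) : ℤ) : R) *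
      (u ^ a * w ^ b) ^ (j : ℕ))| ≤ T₁ * (H * (2 * (M : ℝ)) ^ T₀ * B ^ (2 * M * T₁)) := by
    intro i
    rw [map_sum]
    refine (Finset.abs_sum_le_sum_abs _ _).trans ?_
    refine (Finset.sum_le_sum fun j _ => hterm i j).trans ?_
    rw [Finset.sum_const, Finset.card_univ, Fintype.card_fin, nsmul_eq_mul]
  refine (Finset.sum_le_sum fun i _ => hin i).trans ?_
  rw [Finset.sum_const, Finset.card_univ, Fintype.card_fin, nsmul_eq_mul]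
  exact le_of_eq (by ring)

/-- Archimedean bound for the values of the auxiliary function. -/
theorem arch_bound (K : Type*) [Field K] [NumberField K] (s : K →+* ℝ) (τ : 𝓞 K ≃+* 𝓞 K)
    (U : (𝓞 K)ˣ) (B : ℝ) (hB : 1 ≤ B) (hU : |s ((U : 𝓞 K) : K)| ≤ B)
    (hτU : |s ((τ (U : 𝓞 K) : 𝓞 K) : K)| ≤ B) (T₀ T₁ M : ℕ) (hM : 1 ≤ M)
    (c : Fin T₀ → Fin T₁ → 𝓞 K) (H : ℝ) (hc : ∀ i j, |s ((c i j : 𝓞 K) : K)| ≤ H)
    (a b : ℕ) (ha : a ≤ M) (hb : b ≤ M) :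
    |s ((FX τ U T₀ T₁ c a b : 𝓞 K) : K)| ≤
        (T₀ : ℝ) * T₁ * H * (2 * (M : ℝ)) ^ T₀ * B ^ (2 * M * T₁) ∧
      |s ((FY τ U T₀ T₁ c a b : 𝓞 K) : K)| ≤
        (T₀ : ℝ) * T₁ * H * (2 * (M : ℝ)) ^ T₀ * B ^ (2 * M * T₁) := by
  have hxy := XYb (a : ℤ) (b : ℤ) (M : ℤ) (by positivity) (by positivity) (by exact_mod_cast ha)
    (by exact_mod_cast hb)
  exact ⟨gen (s.comp (algebraMap (𝓞 K) K)) (U : 𝓞 K) (τ (U : 𝓞 K)) B hB hU hτU T₀ T₁ M hM c H hc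
      a b ha hb (fun i => (XY a b i).1) fun i => (hxy i).1,
    gen (s.comp (algebraMap (𝓞 K) K)) (U : 𝓞 K) (τ (U : 𝓞 K)) B hB hU hτU T₀ T₁ M hM c H hc
      a b ha hb (fun i => (XY a b i).2) fun i => (hxy i).2⟩

end Leo

end Pool.Agent.MP_ca7d12_nt
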