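import Pool.Agent.Lib.MP_ca7d12_nt.Leo.Defs

set_option autoImplicit false

namespace Pool.Agent.MP_ca7d12_nt

namespace Leo

open NumberField

/-- Good directions are independent together with `1` and their conjugate. -/
theorem indep_of_good {R : Type*} [CommRing R] (hR : ∀ q : ℤ, IsUnit (q : R) → IsUnit q)
    (τ : R ≃+* R) (hτ : ∀ x, τ (τ (τ x)) = x)
    (htr : ∀ x : R, ∃ t : ℤ, x + τ x + τ (τ x) = (t : R)) (p : ℕ) (hp : p.Prime) (v : R)
    (hv : Good τ p v) (i a b : ℤ) (w : R)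
    (h : (i : R) + (a : R) * v + (b : R) * τ v = (p : R) * w) :
    (p : ℤ) ∣ i ∧ (p : ℤ) ∣ a ∧ (p : ℤ) ∣ b := by
  obtain ⟨hv1, hv2⟩ := hv
  have hp' : Prime (p : ℤ) := Nat.prime_iff_prime_int.mp hp
  have hN : (p : ℤ) ∣ a ^ 2 - a * b + b ^ 2 := by
    by_contra hN
    apply hv1
    refine CycAlg.Sc.of_mul (CycAlg.coprime_of_not_dvd hp hN) ?_
    obtain ⟨t, ht⟩ := htr v
    have h2 : (i : R) + (a : R) * τ (τ v) + (b : R) * v = (p : R) * τ (τ w) := by
      have := congrArg (fun x => τ (τ x)) h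
      simp only [map_add, map_mul, map_intCast, map_natCast, hτ] at this
      exact this
    refine ⟨-(i * (a + b)) - a * b * t, (a : R) * w + (b : R) * τ (τ w), ?_⟩
    push_cast
    linear_combination (a : R) * h + (b : R) * h2 - (a : R) * (b : R) * ht
  have hb : (p : ℤ) ∣ b := by
    by_contra hb
    obtain ⟨x, y, hxy⟩ := CycAlg.coprime_of_not_dvd hp hb
    -- `x * b + y * p = 1`
    have hdvd : (p : ℤ) ∣ (-(a * x)) ^ 2 + (-(a * x)) + 1 := by
      obtain ⟨k, hk⟩ := hN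
      refine ⟨x ^ 2 * k - a * x * y + 1 * y * (x * b) + y * (1 : ℤ), ?_⟩
      have h1 : x * b = 1 - y * p := by linarith
      have h2 : a ^ 2 * x ^ 2 = x ^ 2 * (p * k) + a * x * (x * b) - (x * b) ^ 2 := by
        rw [← hk]; ring
      have h3 : (-(a * x)) ^ 2 + (-(a * x)) + 1 = a ^ 2 * x ^ 2 - a * x + 1 := by ring
      rw [h3, h2, h1]
      ring
    apply hv2 _ hdvd
    have hx : (x : R) * (b : R) + (y : R) * (p : R) = 1 := by
      have := congrArg (fun z : ℤ => (z : R)) hxy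
      simpa using this
    refine ⟨-(x * i), (x : R) * w + (y : R) * τ v, ?_⟩
    push_cast
    linear_combination (x : R) * h - τ v * hx
  have ha : (p : ℤ) ∣ a := by
    have h2 : (p : ℤ) ∣ a ^ 2 := by
      have : a ^ 2 = (a ^ 2 - a * b + b ^ 2) + b * (a - b) := by ring
      rw [this]
      exact dvd_add hN (hb.mul_right _)
    exact hp'.dvd_of_dvd_pow h2
  refine ⟨?_, ha, hb⟩
  obtain ⟨a', ha'⟩ := ha
  obtain ⟨b', hb'⟩ := hb
  refine CycAlg.int_dvd hR p hp i (w - (a' : R) * v - (b' : R) * τ v) ?_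
  have h1 : (a : R) = (p : R) * (a' : R) := by rw [ha']; push_cast; ring
  have h2 : (b : R) = (p : R) * (b' : R) := by rw [hb']; push_cast; ring
  rw [h1, h2] at h
  linear_combination h

end Leo

end Pool.Agent.MP_ca7d12_nt
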