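import Pool.Agent.Lib.MP_ca7d12_nt.Leo.Defs

set_option autoImplicit false

namespace Pool.Agent.MP_ca7d12_nt

namespace Leo

open NumberField

namespace StepAux

variable {R : Type*} [CommRing R]

/-- The first order form `u = C (1 + D cb X) + D² w`. -/
def Rel (D cb : ℤ) (u : Rˣ) (X : R) : Prop :=
  ∃ C : ℤ, IsCoprime C D ∧ ∃ w : R,
    (u : R) = (C : R) * (1 + (D : R) * (cb : R) * X) + (D : R) ^ 2 * w

theorem Rel.one (D cb : ℤ) : Rel D cb (1 : Rˣ) (0 : R) :=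
  ⟨1, isCoprime_one_left, 0, by push_cast; ring⟩

theorem Rel.mul {D cb : ℤ} {u u' : Rˣ} {X X' : R} (h : Rel D cb u X) (h' : Rel D cb u' X') :
    Rel D cb (u * u') (X + X') := by
  obtain ⟨C, hC, w, hw⟩ := h
  obtain ⟨C', hC', w', hw'⟩ := h'
  refine ⟨C * C', hC.mul_left hC', (C : R) * (C' : R) * (cb : R) ^ 2 * X * X' +
    (C : R) * (1 + (D : R) * (cb : R) * X) * w' + (C' : R) * (1 + (D : R) * (cb : R) * X') * w +
    (D : R) ^ 2 * w * w', ?_⟩
  rw [Units.val_mul, hw, hw']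
  push_cast
  ring

theorem Rel.inv {D cb : ℤ} {u : Rˣ} {X : R} (h : Rel D cb u X) : Rel D cb u⁻¹ (-X) := by
  obtain ⟨C, hC, w, hw⟩ := h
  have hC2 : IsCoprime C (D ^ 2) := hC.pow_right
  obtain ⟨C', e', he⟩ := hC2
  have hco : IsCoprime C' D := by
    have h1 : IsCoprime C' (D ^ 2) := ⟨C, e', by linear_combination he⟩
    exact h1.of_isCoprime_of_dvd_right (dvd_pow_self D two_ne_zero)
  have he' : (C' : R) * (C : R) + (e' : R) * (D : R) ^ 2 = 1 := by
    have := congrArg (fun z : ℤ => (z : R)) he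
    push_cast at this
    exact this
  have huu : (u : R) * ((u⁻¹ : Rˣ) : R) = 1 := Units.mul_inv u
  set z : R := -(e' : R) - (C' : R) * (C : R) * (cb : R) ^ 2 * X ^ 2 +
    (C' : R) * (1 - (D : R) * (cb : R) * X) * w with hz
  have hkey : (C' : R) * (1 - (D : R) * (cb : R) * X) * (u : R) = 1 + (D : R) ^ 2 * z := by
    rw [hw, hz]
    linear_combination he'
  refine ⟨C', hco, -(z * ((u⁻¹ : Rˣ) : R)), ?_⟩
  have h2 : (C' : R) * (1 - (D : R) * (cb : R) * X) =
      ((u⁻¹ : Rˣ) : R) + (D : R) ^ 2 * z * ((u⁻¹ : Rˣ) : R) := by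
    calc (C' : R) * (1 - (D : R) * (cb : R) * X) =
        (C' : R) * (1 - (D : R) * (cb : R) * X) * ((u : R) * ((u⁻¹ : Rˣ) : R)) := by
          rw [huu, mul_one]
      _ = ((C' : R) * (1 - (D : R) * (cb : R) * X) * (u : R)) * ((u⁻¹ : Rˣ) : R) := by ring
      _ = _ := by rw [hkey]; ring
  linear_combination -h2

theorem Rel.pow {D cb : ℤ} {u : Rˣ} {X : R} (h : Rel D cb u X) (k : ℕ) :
    Rel D cb (u ^ k) ((k : R) * X) := by
  induction k with
  | zero => simpa using Rel.one (R := R) D cb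
  | succ k ih =>
    have h1 := ih.mul h
    rw [pow_succ]
    convert h1 using 1
    push_cast
    ring

theorem Rel.zpow {D cb : ℤ} {u : Rˣ} {X : R} (h : Rel D cb u X) (k : ℤ) :
    Rel D cb (u ^ k) ((k : R) * X) := by
  obtain ⟨m, rfl | rfl⟩ := k.eq_nat_or_neg
  · rw [zpow_natCast]
    simpa using h.pow m
  · rw [zpow_neg, zpow_natCast]
    have h1 := (h.pow m).inv
    convert h1 using 1
    push_cast
    ring

theorem Rel.base {D cb e c : ℤ} {u : Rˣ} {X : R} (hcD : IsCoprime c D) (hce : cb * c + e * D = 1)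
    (hu : (u : R) = (c : R) + (D : R) * X) : Rel D cb u X := by
  have hce' : (cb : R) * (c : R) + (e : R) * (D : R) = 1 := by
    have := congrArg (fun z : ℤ => (z : R)) hce
    push_cast at this
    exact this
  refine ⟨c, hcD, (e : R) * X, ?_⟩
  rw [hu]
  linear_combination -((D : R) * X) * hce'

theorem Sc_congr {q : ℕ} {m : ℤ} {x y z : R} (hm : IsCoprime m (q : ℤ))
    (h : y = (m : R) * x + (q : R) * z) (hy : CycAlg.Sc q y) : CycAlg.Sc q x := by
  obtain ⟨i, w, hw⟩ := hy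
  exact CycAlg.Sc.of_mul hm ⟨i, w - z, by linear_combination hw - h⟩

end StepAux

open StepAux

/-- One improvement step at a prime `p` at which the direction is an eigenvector. -/
theorem step {R : Type*} [CommRing R] [IsDomain R] [CharZero R]
    (hR : ∀ q : ℤ, IsUnit (q : R) → IsUnit q) (τ : R ≃+* R) (hτ : ∀ x, τ (τ (τ x)) = x)
    (htr : ∀ x : R, ∃ t : ℤ, x + τ x + τ (τ x) = (t : R))
    (S : Finset ℕ) (hS : ∀ p ∈ S, p.Prime) (P : ℤ) (hSP : ∀ p ∈ S, (p : ℤ) ∣ P)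
    (D : ℤ) (hPD : P ^ 2 ∣ D) (η : Rˣ) (c : ℤ) (v : R) (h : (η : R) = (c : R) + (D : R) * v)
    (p : ℕ) (hp : p ∈ S) (ω x y : ℤ) (hω : (p : ℤ) ∣ ω ^ 2 + ω + 1)
    (hxy : x ^ 2 - x * y + y ^ 2 = p) (hxω : (p : ℤ) ∣ x + y * ω)
    (hv : ¬ CycAlg.Sc p v) (hbad : CycAlg.Sc p (τ v - (ω : R) * v)) :
    ∃ (c' : ℤ) (v' : R), (upow τ η x y : R) = (c' : R) + ((p : ℤ) * D : ℤ) * v' ∧
      (∀ q ∈ S, ¬ CycAlg.Sc q v → ¬ CycAlg.Sc q v') ∧ (∀ q ∈ S, Good τ q v → Good τ q v') ∧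
      ∀ ω' : ℤ, (p : ℤ) ∣ ω' ^ 2 + ω' + 1 → CycAlg.Sc p (τ v' - (ω' : R) * v') →
        (p : ℤ) ∣ ω' - ω ∧ p ≠ 3 := by
  have hpp := hS p hp
  have hpZ : Prime (p : ℤ) := Nat.prime_iff_prime_int.mp hpp
  have hpR : (p : R) ≠ 0 := Nat.cast_ne_zero.2 hpp.ne_zero
  have hcD : IsCoprime c D := UnitsA.coprime_of_unit hR c D (η : R) v η.isUnit ⟨1, by rw [h]; ring⟩
  obtain ⟨cb, e, hce⟩ := id hcD
  have hcbD : IsCoprime cb D := ⟨c, e, by linear_combination hce⟩
  -- the first order formula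
  have hτη : ((Units.map ((τ : R →+* R) : R →* R) η : Rˣ) : R) = (c : R) + (D : R) * τ v := by
    rw [Units.coe_map]
    change τ (η : R) = _
    rw [h]
    simp
  have hrel : Rel D cb (upow τ η x y) ((x : R) * v + (y : R) * τ v) :=
    ((Rel.base hcD hce h).zpow x).mul ((Rel.base hcD hce hτη).zpow y)
  obtain ⟨C, hC, w, hw⟩ := hrel
  -- the direction
  obtain ⟨i, w₀, hw₀⟩ := hbad
  obtain ⟨k, hk⟩ := hxω
  have hkR : (x : R) + (y : R) * (ω : R) = (p : R) * (k : R) := by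
    have := congrArg (fun z : ℤ => (z : R)) hk
    push_cast at this
    exact this
  set v₁ : R := (k : R) * v + (y : R) * w₀ with hv₁
  have hdir : (x : R) * v + (y : R) * τ v = ((y * i : ℤ) : R) + (p : R) * v₁ := by
    rw [hv₁]
    push_cast
    linear_combination (y : R) * hw₀ + v * hkR
  -- divisibility of `D`
  obtain ⟨a, ha⟩ := hSP p hp
  obtain ⟨D₂, hD₂⟩ := hPD
  have hDp : D = p * (a * P * D₂) := by
    rw [hD₂]
    linear_combination P * D₂ * ha
  set Dp : ℤ := a * P * D₂ with hDpdef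
  have hqDp : ∀ q ∈ S, (q : ℤ) ∣ Dp := fun q hq =>
    ((hSP q hq).mul_left a).mul_right D₂
  have hqD : ∀ q ∈ S, (q : ℤ) ∣ D := fun q hq => by
    rw [hDp]
    exact (hqDp q hq).mul_left _
  have hDpR : (D : R) = (p : R) * (Dp : R) := by
    have := congrArg (fun z : ℤ => (z : R)) hDp
    push_cast at this
    exact this
  set v' : R := (C : R) * (cb : R) * v₁ + (Dp : R) * w with hv'
  set m : ℤ := C * cb with hm
  have hmq : ∀ q ∈ S, IsCoprime m (q : ℤ) := fun q hq =>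
    (hC.mul_left hcbD).of_isCoprime_of_dvd_right (hqD q hq)
  -- the operator `x - y - y τ`
  obtain ⟨t, ht⟩ := htr v
  have hτdir : (x : R) * τ v + (y : R) * τ (τ v) = ((y * i : ℤ) : R) + (p : R) * τ v₁ := by
    have := congrArg (fun z => τ z) hdir
    simp only [map_add, map_mul, map_intCast, map_natCast] at this
    exact this
  have hxyR : (x : R) ^ 2 - (x : R) * (y : R) + (y : R) ^ 2 = (p : R) := by
    have := congrArg (fun z : ℤ => (z : R)) hxy
    push_cast at this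
    exact this
  have hop1 : (((-(y ^ 2 * t) - (x - 2 * y) * (y * i) : ℤ)) : R) =
      (p : R) * (((x : R) - (y : R)) * v₁ - (y : R) * τ v₁ - v) := by
    push_cast at hdir hτdir ⊢
    linear_combination ((x : R) - (y : R)) * hdir - (y : R) * hτdir - v * hxyR +
      (y : R) ^ 2 * ht
  obtain ⟨j, hj⟩ := CycAlg.int_dvd hR p hpp _ _ hop1
  have hop : ((x : R) - (y : R)) * v₁ - (y : R) * τ v₁ = v + (j : R) := by
    apply mul_left_cancel₀ hpR
    have hjR : (((-(y ^ 2 * t) - (x - 2 * y) * (y * i) : ℤ)) : R) = (p : R) * (j : R) := by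
      rw [hj]
      push_cast
      ring
    linear_combination hjR - hop1
  -- `v'` modulo `q`
  have hScv : ∀ q ∈ S, CycAlg.Sc q v' → CycAlg.Sc q v₁ := by
    intro q hq hs
    obtain ⟨d, hd⟩ := hqDp q hq
    refine Sc_congr (m := m) (z := (d : R) * w) (hmq q hq) ?_ hs
    have hd' : (Dp : R) = (q : R) * (d : R) := by rw [hd]; push_cast; ring
    rw [hv', hd', hm]
    push_cast
    ring
  have hScτ : ∀ q ∈ S, ∀ ω' : ℤ, CycAlg.Sc q (τ v' - (ω' : R) * v') →
      CycAlg.Sc q (τ v₁ - (ω' : R) * v₁) := by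
    intro q hq ω' hs
    obtain ⟨d, hd⟩ := hqDp q hq
    refine Sc_congr (m := m) (z := (d : R) * (τ w - (ω' : R) * w)) (hmq q hq) ?_ hs
    have hd' : (Dp : R) = (q : R) * (d : R) := by rw [hd]; push_cast; ring
    have h1 : τ v' = (C : R) * (cb : R) * τ v₁ + (Dp : R) * τ w := by
      rw [hv']
      simp only [map_add, map_mul, map_intCast]
    rw [h1, hv', hd', hm]
    push_cast
    ring
  have hSc1 : ∀ q : ℕ, CycAlg.Sc q v₁ → CycAlg.Sc q v := by
    rintro q ⟨i₁, w₁, hw₁⟩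
    have h1 : τ v₁ = (i₁ : R) + (q : R) * τ w₁ := by
      rw [hw₁]
      simp only [map_add, map_mul, map_intCast, map_natCast]
    refine ⟨(x - 2 * y) * i₁ - j, ((x : R) - (y : R)) * w₁ - (y : R) * τ w₁, ?_⟩
    push_cast
    linear_combination -hop + ((x : R) - (y : R)) * hw₁ - (y : R) * h1
  have hτop : ((x : R) - (y : R)) * τ v₁ - (y : R) * τ (τ v₁) = τ v + (j : R) := by
    have := congrArg (fun z => τ z) hop
    simp only [map_add, map_sub, map_mul, map_intCast] at this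
    exact this
  have hSc2 : ∀ (q : ℕ) (ω' : ℤ), CycAlg.Sc q (τ v₁ - (ω' : R) * v₁) →
      CycAlg.Sc q (τ v - (ω' : R) * v) := by
    rintro q ω' ⟨i₁, w₁, hw₁⟩
    have h1 : τ (τ v₁) - (ω' : R) * τ v₁ = (i₁ : R) + (q : R) * τ w₁ := by
      have := congrArg (fun z => τ z) hw₁
      simp only [map_add, map_sub, map_mul, map_intCast, map_natCast] at this
      exact this
    refine ⟨(x - 2 * y) * i₁ - j + ω' * j, ((x : R) - (y : R)) * w₁ - (y : R) * τ w₁, ?_⟩
    push_cast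
    linear_combination -hτop + (ω' : R) * hop + ((x : R) - (y : R)) * hw₁ - (y : R) * h1
  refine ⟨C * (1 + D * cb * (y * i)), v', ?_, fun q hq hnv hs => hnv (hSc1 q (hScv q hq hs)),
    fun q hq hg => ⟨fun hs => hg.1 (hSc1 q (hScv q hq hs)), fun ω' hω' hs =>
      hg.2 ω' hω' (hSc2 q ω' (hScτ q hq ω' hs))⟩, fun ω' hω' hs => ?_⟩
  · rw [hw, hdir, hv']
    push_cast
    linear_combination (D : R) * w * hDpR
  · obtain ⟨i₂, w₂, hw₂⟩ := hScτ p hp ω' hs
    have hnot : ¬ (p : ℤ) ∣ ω' + ω + 1 := by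
      rintro ⟨l, hl⟩
      have hlR : (ω' : R) + (ω : R) + 1 = (p : R) * (l : R) := by
        have := congrArg (fun z : ℤ => (z : R)) hl
        push_cast at this
        exact this
      refine hv ⟨-(y * i₂) - j, ((k : R) - (y : R) * (l : R)) * v₁ - (y : R) * w₂, ?_⟩
      push_cast
      linear_combination -hop - (y : R) * hw₂ - (y : R) * v₁ * hlR + v₁ * hkR
    have h1 : (p : ℤ) ∣ (ω' - ω) * (ω' + ω + 1) := by
      have h2 := dvd_sub hω' hω
      have h3 : ω' ^ 2 + ω' + 1 - (ω ^ 2 + ω + 1) = (ω' - ω) * (ω' + ω + 1) := by ring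
      rwa [h3] at h2
    have h2 : (p : ℤ) ∣ ω' - ω := (hpZ.dvd_or_dvd h1).resolve_right hnot
    refine ⟨h2, fun hp3 => hnot ?_⟩
    have h3 : (p : ℤ) ∣ (2 * ω + 1) ^ 2 := by
      have h4 : (2 * ω + 1) ^ 2 = 4 * (ω ^ 2 + ω + 1) - 3 := by ring
      rw [h4]
      refine dvd_sub (hω.mul_left 4) ?_
      rw [hp3]
      norm_num
    have h5 : (p : ℤ) ∣ 2 * ω + 1 := hpZ.dvd_of_dvd_pow h3
    have h6 : ω' + ω + 1 = (ω' - ω) + (2 * ω + 1) := by ring
    rw [h6]
    exact dvd_add h2 h5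

end Leo

end Pool.Agent.MP_ca7d12_nt
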