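import Pool.Agent.Lib.MP_ca7d12_nt.Leo.Defs

set_option autoImplicit false

namespace Pool.Agent.MP_ca7d12_nt

namespace Leo

open NumberField

/-- The ring automorphism as a homomorphism of the groups of units. -/
private def um {R : Type*} [CommRing R] (τ : R ≃+* R) : Rˣ →* Rˣ :=
  Units.map ((τ : R →+* R) : R →* R)

private theorem um_val {R : Type*} [CommRing R] (τ : R ≃+* R) (u : Rˣ) :
    ((um τ u : Rˣ) : R) = τ (u : R) := rfl

private theorem upow_eq {R : Type*} [CommRing R] (τ : R ≃+* R) (η : Rˣ) (a b : ℤ) :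
    upow τ η a b = η ^ a * (um τ η) ^ b := rfl

private theorem normOne_iff {R : Type*} [CommRing R] (τ : R ≃+* R) (η : Rˣ) :
    NormOne τ η ↔ η * um τ η * um τ (um τ η) = 1 := by
  rw [Units.ext_iff, Units.val_mul, Units.val_mul, Units.val_one, um_val, um_val, um_val]
  exact Iff.rfl

/-- Composition of exponents. -/
theorem upow_upow {R : Type*} [CommRing R] (τ : R ≃+* R) (η : Rˣ) (hN : NormOne τ η)
    (a b x y : ℤ) :
    upow τ (upow τ η a b) x y = upow τ η (a * x - b * y) (b * x + (a - b) * y) := by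
  have h := (normOne_iff τ η).1 hN
  have h1 : um τ (um τ η) = η⁻¹ * (um τ η)⁻¹ := by
    rw [← mul_inv]
    exact eq_inv_of_mul_eq_one_right h
  rw [upow_eq, upow_eq, upow_eq, map_mul, map_zpow, map_zpow, h1]
  generalize um τ η = B
  have e1 : a * x - b * y = a * x + -(b * y) := by ring
  have e2 : b * x + (a - b) * y = b * x + a * y + -(b * y) := by ring
  rw [e1, e2]
  simp only [mul_zpow, zpow_add, inv_zpow', ← zpow_mul, neg_mul]
  ac_rfl

theorem normOne_upow {R : Type*} [CommRing R] (τ : R ≃+* R) (hτ : ∀ x, τ (τ (τ x)) = x) (η : Rˣ)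
    (hN : NormOne τ η) (a b : ℤ) : NormOne τ (upow τ η a b) := by
  have h := (normOne_iff τ η).1 hN
  have h3 : um τ (um τ (um τ η)) = η := by
    apply Units.ext
    rw [um_val, um_val, um_val]
    exact hτ _
  rw [normOne_iff, upow_eq]
  simp only [map_mul, map_zpow]
  rw [h3]
  have h1 : η ^ a * um τ η ^ b * (um τ η ^ a * um τ (um τ η) ^ b) *
      (um τ (um τ η) ^ a * η ^ b) =
      (η * um τ η * um τ (um τ η)) ^ a * (η * um τ η * um τ (um τ η)) ^ b := by
    simp only [mul_zpow]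
    ac_rfl
  rw [h1, h, one_zpow, one_zpow, one_mul]

theorem upow_add {R : Type*} [CommRing R] (τ : R ≃+* R) (η : Rˣ) (a b a' b' : ℤ) :
    upow τ η (a + a') (b + b') = upow τ η a b * upow τ η a' b' := by
  rw [upow_eq, upow_eq, upow_eq, zpow_add, zpow_add]
  ac_rfl

theorem upow_pow {R : Type*} [CommRing R] (τ : R ≃+* R) (η : Rˣ) (a b : ℤ) (n : ℕ) :
    upow τ (η ^ n) a b = upow τ η a b ^ n := by
  rw [upow_eq, upow_eq, map_pow, mul_pow]
  congr 1
  · rw [← zpow_natCast, ← zpow_mul, ← zpow_natCast, ← zpow_mul, mul_comm]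
  · rw [← zpow_natCast, ← zpow_mul, ← zpow_natCast, ← zpow_mul, mul_comm]

end Leo

end Pool.Agent.MP_ca7d12_nt
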