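import Pool.Agent.Lib.MP_ca7d12_nt.Leo.Schneider
import Pool.Agent.Lib.MP_ca7d12_nt.Leo.UpowAlg
import Pool.Agent.Lib.MP_ca7d12_nt.Leo.TauNorm
import Pool.Agent.Lib.MP_ca7d12_nt.Leo.GoodIndep
import Pool.Agent.Lib.MP_ca7d12_nt.Leo.Step
import Pool.Agent.Lib.MP_ca7d12_nt.Cyclic

set_option autoImplicit false

namespace Pool.Agent.MP_ca7d12_nt

open NumberField

namespace Leo

theorem mod_three_of_root (p : ℕ) (hp : p.Prime) (hp3 : p ≠ 3) (ω : ℤ)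
    (hω : (p : ℤ) ∣ ω ^ 2 + ω + 1) : p % 3 = 1 := by
  have h0 : p % 3 ≠ 0 := by
    intro h0
    exact hp3 ((Nat.prime_dvd_prime_iff_eq Nat.prime_three hp).mp (Nat.dvd_of_mod_eq_zero h0)).symm
  have h2 : p % 3 ≠ 2 := by
    intro h2
    have h3 := CycAlg.dvd_of_form hp h2 (-ω) 1 (by
      have : (-ω) ^ 2 - (-ω) * 1 + 1 ^ 2 = ω ^ 2 + ω + 1 := by ring
      rw [this]; exact hω)
    exact (Nat.prime_iff_prime_int.mp hp).not_isUnit (isUnit_of_dvd_one h3.2)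
  omega

/-- The package of properties of the unit used in the induction over the primes of `S`. -/
def Pack (K : Type*) [Field K] [NumberField K] (τ : 𝓞 K ≃+* 𝓞 K) (S S' : Finset ℕ) (P : ℤ) : Prop :=
  ∃ (η : (𝓞 K)ˣ) (c D : ℤ) (v : 𝓞 K), D ≠ 0 ∧ P ^ 2 ∣ D ∧
    (η : 𝓞 K) = (c : 𝓞 K) + (D : 𝓞 K) * v ∧ NormOne τ η ∧ (∀ q ∈ S, ¬ CycAlg.Sc q v) ∧
    (∀ q ∈ S', Good τ q v) ∧ ∀ c : ℤ, (η : 𝓞 K) ≠ (c : 𝓞 K)

theorem pack_insert (K : Type*) [Field K] [NumberField K] (hK : Module.finrank ℚ K = 3)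
    (σ : Fin 3 → K →+* ℝ) (hσ : Function.Injective σ) (τ : 𝓞 K ≃+* 𝓞 K)
    (hτ : ∀ x, τ (τ (τ x)) = x) (htr : ∀ x : 𝓞 K, ∃ t : ℤ, x + τ x + τ (τ x) = (t : 𝓞 K))
    (S : Finset ℕ) (hS : ∀ p ∈ S, p.Prime) (P : ℤ) (hSP : ∀ p ∈ S, (p : ℤ) ∣ P)
    (S' : Finset ℕ) (hS'S : S' ⊆ S) (p : ℕ) (hpS : p ∈ S) (h : Pack K τ S S' P) :
    Pack K τ S (insert p S') P := by
  have hR : ∀ q : ℤ, IsUnit (q : 𝓞 K) → IsUnit q := isUnit_of_isUnit_intCast K
  obtain ⟨η, c, D, v, hD, hPD, hη, hN, hSc, hGood, hint⟩ := h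
  have hp := hS p hpS
  by_cases hg : Good τ p v
  · refine ⟨η, c, D, v, hD, hPD, hη, hN, hSc, ?_, hint⟩
    intro q hq
    rcases Finset.mem_insert.mp hq with rfl | hq
    · exact hg
    · exact hGood q hq
  obtain ⟨ω, hω, hbad⟩ : ∃ ω : ℤ, (p : ℤ) ∣ ω ^ 2 + ω + 1 ∧ CycAlg.Sc p (τ v - (ω : 𝓞 K) * v) := by
    by_contra hcon
    push Not at hcon
    exact hg ⟨hSc p hpS, hcon⟩
  obtain ⟨x, y, hxy, hxω⟩ := exists_xy p hp ω hω
  -- the good level exists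
  obtain ⟨j, c', v', h1, h2, h3, h4⟩ : ∃ (j : ℕ) (c' : ℤ) (v' : 𝓞 K),
      (upow τ η (XY x y j).1 (XY x y j).2 : 𝓞 K) =
        (c' : 𝓞 K) + (((p : ℤ) ^ j * D : ℤ) : 𝓞 K) * v' ∧
      (∀ q ∈ S, ¬ CycAlg.Sc q v') ∧ (∀ q ∈ S', Good τ q v') ∧ Good τ p v' := by
    by_contra hcon
    push Not at hcon
    have key : ∀ j : ℕ, ∃ (c' : ℤ) (v' : 𝓞 K),
        (upow τ η (XY x y j).1 (XY x y j).2 : 𝓞 K) =
          (c' : 𝓞 K) + (((p : ℤ) ^ j * D : ℤ) : 𝓞 K) * v' ∧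
        (∀ q ∈ S, ¬ CycAlg.Sc q v') ∧ (∀ q ∈ S', Good τ q v') ∧
        CycAlg.Sc p (τ v' - (ω : 𝓞 K) * v') ∧ (j ≠ 0 → p ≠ 3) := by
      intro j
      induction j with
      | zero =>
        refine ⟨c, v, ?_, hSc, hGood, hbad, fun h => absurd rfl h⟩
        simp [XY_zero, upow, hη]
      | succ j ih =>
        obtain ⟨cj, vj, hj1, hj2, hj3, hj4, -⟩ := ih
        have hPDj : P ^ 2 ∣ (p : ℤ) ^ j * D := hPD.mul_left _
        obtain ⟨c'', v'', hs1, hs2, hs3, hs4⟩ := step hR τ hτ htr S hS P hSP ((p : ℤ) ^ j * D) hPDj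
          (upow τ η (XY x y j).1 (XY x y j).2) cj vj hj1 p hpS ω x y hω hxy hxω (hj2 p hpS) hj4
        rw [upow_upow τ η hN] at hs1
        have hXY : XY x y (j + 1) = ((XY x y j).1 * x - (XY x y j).2 * y,
            (XY x y j).2 * x + ((XY x y j).1 - (XY x y j).2) * y) := by
          rw [XY_succ]
          ext <;> simp <;> ring
        have h5 : (upow τ η (XY x y (j + 1)).1 (XY x y (j + 1)).2 : 𝓞 K) =
            (c'' : 𝓞 K) + (((p : ℤ) ^ (j + 1) * D : ℤ) : 𝓞 K) * v'' := by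
          rw [hXY]
          rw [hs1]
          congr 3
          ring
        have h6 : ∀ q ∈ S, ¬ CycAlg.Sc q v'' := fun q hq => hs2 q hq (hj2 q hq)
        have h7 : ∀ q ∈ S', Good τ q v'' := fun q hq => hs3 q (hS'S hq) (hj3 q hq)
        have h8 := hcon (j + 1) c'' v'' h5 h6 h7
        obtain ⟨ω', hω', hbad'⟩ : ∃ ω' : ℤ, (p : ℤ) ∣ ω' ^ 2 + ω' + 1 ∧
            CycAlg.Sc p (τ v'' - (ω' : 𝓞 K) * v'') := by
          by_contra hcon'
          push Not at hcon'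
          exact h8 ⟨h6 p hpS, hcon'⟩
        obtain ⟨⟨e, he⟩, hp3⟩ := hs4 ω' hω' hbad'
        refine ⟨c'', v'', h5, h6, h7, ?_, fun _ => hp3⟩
        obtain ⟨i, w, hiw⟩ := hbad'
        refine ⟨i, w + (e : 𝓞 K) * v'', ?_⟩
        have he' : (ω' : 𝓞 K) = (ω : 𝓞 K) + (p : 𝓞 K) * (e : 𝓞 K) := by
          have : ω' = ω + p * e := by linarith
          rw [this]; push_cast; ring
        rw [he'] at hiw
        linear_combination hiw
    have hp3 : p ≠ 3 := (key 1).choose_spec.choose_spec.2.2.2.2 one_ne_zero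
    have hpm := mod_three_of_root p hp hp3 ω hω
    refine schneider K hK σ hσ τ hτ p hp hpm x y hxy η hint hN ?_
    intro j
    obtain ⟨cj, vj, hj1, -⟩ := key j
    refine ⟨cj, (D : 𝓞 K) * vj, ?_⟩
    rw [hj1]
    push_cast
    ring
  refine ⟨upow τ η (XY x y j).1 (XY x y j).2, c', (p : ℤ) ^ j * D, v', ?_, hPD.mul_left _, h1,
    normOne_upow τ hτ η hN _ _, h2, ?_, ?_⟩
  · exact mul_ne_zero (pow_ne_zero _ (by exact_mod_cast hp.ne_zero)) hD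
  · intro q hq
    rcases Finset.mem_insert.mp hq with rfl | hq
    · exact h4
    · exact h3 q hq
  · intro c'' hc''
    have h5 : (((p : ℤ) ^ j * D : ℤ) : 𝓞 K) * v' = ((c'' - c' : ℤ) : 𝓞 K) := by
      rw [h1] at hc''
      push_cast at hc'' ⊢
      linear_combination hc''
    obtain ⟨n, hn⟩ := exists_int_of_mul_eq K v' _ _
      (mul_ne_zero (pow_ne_zero _ (by exact_mod_cast hp.ne_zero)) hD) h5
    exact h2 p hpS ⟨n, 0, by rw [hn]; ring⟩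

end Leo

open Leo in
/-- In a cyclic cubic field the units are open modulo scalars for every finite set of primes. -/
theorem unitsOpen_cyclic_all (K : Type*) [Field K] [NumberField K] (hK : Module.finrank ℚ K = 3)
    [IsGalois ℚ K] (σ : Fin 3 → K →+* ℝ) (hσ : Function.Injective σ)
    (S : Finset ℕ) (hS : ∀ p ∈ S, p.Prime) :
    UnitsOpen (𝓞 K) (∏ p ∈ S, (p : ℤ)) := by
  obtain ⟨η₀, hη₀⟩ := exists_unit K hK σ hσ
  obtain ⟨τ, hτ, htr, hnm⟩ := exists_tau_norm K hK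
  have hR : ∀ q : ℤ, IsUnit (q : 𝓞 K) → IsUnit q := isUnit_of_isUnit_intCast K
  set P : ℤ := ∏ p ∈ S, (p : ℤ) with hP
  have hP0 : P ≠ 0 := by
    rw [hP]
    exact Finset.prod_ne_zero_iff.mpr fun p hp => by exact_mod_cast (hS p hp).ne_zero
  have hSP : ∀ p ∈ S, (p : ℤ) ∣ P := fun p hp => by
    rw [hP]
    exact Finset.dvd_prod_of_mem (fun p : ℕ => (p : ℤ)) hp
  have hbase : Pack K τ S ∅ P := by
    obtain ⟨η₁, c₁, D₁, v₁, hD₁, hfD₁, h₁, hprim⟩ :=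
      exists_level K η₀ hη₀ (4 * P ^ 2) (mul_ne_zero (by norm_num) (pow_ne_zero 2 hP0))
    obtain ⟨E, hE⟩ := hfD₁
    have hcop : IsCoprime c₁ D₁ :=
      UnitsA.coprime_of_unit hR c₁ D₁ (η₁ : 𝓞 K) v₁ η₁.isUnit ⟨1, by rw [h₁]; ring⟩
    have hv₁int : ∀ n : ℤ, v₁ ≠ (n : 𝓞 K) := fun n hn =>
      hprim 2 Nat.prime_two n 0 (by rw [hn]; ring)
    have hη₁int : ∀ n : ℤ, (η₁ : 𝓞 K) ≠ (n : 𝓞 K) := by
      intro n hn
      have h2 : (D₁ : 𝓞 K) * v₁ = ((n - c₁ : ℤ) : 𝓞 K) := by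
        rw [h₁] at hn
        push_cast
        linear_combination hn
      obtain ⟨m, hm⟩ := exists_int_of_mul_eq K v₁ _ _ hD₁ h2
      exact hv₁int m hm
    refine ⟨η₁ ^ 2, c₁ ^ 2, 2 * D₁, (c₁ : 𝓞 K) * v₁ + ((2 * P ^ 2 * E : ℤ) : 𝓞 K) * v₁ ^ 2,
      mul_ne_zero two_ne_zero hD₁, ?_, ?_, ?_, ?_, ?_, ?_⟩
    · rw [hE]
      exact ⟨2 * 4 * E, by ring⟩
    · rw [Units.val_pow_eq_pow_val, h₁, hE]
      push_cast
      ring
    · obtain ⟨t, ht⟩ := hnm (η₁ : 𝓞 K)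
      have htu : IsUnit ((t : ℤ) : 𝓞 K) := by
        rw [← ht]
        exact ((η₁.isUnit).mul (η₁.isUnit.map τ)).mul ((η₁.isUnit.map τ).map τ)
      have ht2 : t ^ 2 = 1 := by
        rcases Int.isUnit_iff.mp (hR t htu) with h | h <;> rw [h] <;> norm_num
      have ht2' : ((t : ℤ) : 𝓞 K) ^ 2 = 1 := by exact_mod_cast congrArg (fun z : ℤ => (z : 𝓞 K)) ht2
      rw [NormOne, Units.val_pow_eq_pow_val, map_pow, map_pow, ← mul_pow, ← mul_pow, ht, ht2']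
    · rintro q hq ⟨i, w, hiw⟩
      have hqP := hSP q hq
      obtain ⟨P', hP'⟩ := hqP
      have hcq : IsCoprime c₁ (q : ℤ) := hcop.of_isCoprime_of_dvd_right
        ⟨4 * P' * P * E, by rw [hE, hP']; ring⟩
      obtain ⟨i', w', h5⟩ := CycAlg.Sc.of_mul (v := v₁) hcq
        ⟨i, w - ((2 * P' * P * E : ℤ) : 𝓞 K) * v₁ ^ 2, by
          have hP'' : (P : 𝓞 K) = (q : 𝓞 K) * (P' : 𝓞 K) := by rw [hP']; push_cast; ring
          push_cast at hiw ⊢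
          linear_combination hiw - (2 * (E : 𝓞 K) * v₁ ^ 2 * (P : 𝓞 K)) * hP''⟩
      exact hprim q (hS q hq) i' w' h5
    · intro q hq
      exact absurd hq (Finset.notMem_empty q)
    · intro n hn
      obtain ⟨m, hm⟩ := int_of_pow_int K (σ 0) η₁ 2 two_pos n hn
      exact hη₁int m hm
  have hall : ∀ S' : Finset ℕ, S' ⊆ S → Pack K τ S S' P := by
    intro S'
    induction S' using Finset.induction_on with
    | empty => intro _; exact hbase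
    | insert p S' _ ih =>
      intro hsub
      have hsub' : S' ⊆ S := fun q hq => hsub (Finset.mem_insert_of_mem hq)
      exact pack_insert K hK σ hσ τ hτ htr S hS P hSP S' hsub' p (hsub (Finset.mem_insert_self _ _))
        (ih hsub')
  obtain ⟨η, c, D, v, hD, hPD, hη, -, -, hGood, -⟩ := hall S (Finset.Subset.refl S)
  refine unitsOpen_of_two hR P D hP0 hD hPD η (Units.map ((τ : 𝓞 K →+* 𝓞 K) : 𝓞 K →* 𝓞 K) η)
    c c v (τ v) hη ?_ ?_
  · rw [Units.coe_map]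
    change τ (η : 𝓞 K) = _
    rw [hη]
    simp
  · intro z
    refine span_of_indep K hK S hS v (τ v) ?_ z
    intro p hp i a b w h
    exact indep_of_good hR τ hτ htr p (hS p hp) v (hGood p hp) i a b w h

end Pool.Agent.MP_ca7d12_nt
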