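import Pool.Agent.Lib.MP_ca7d12_nt.CycAlg
import Pool.Agent.Lib.MP_ca7d12_nt.ProdEmb

/-! Definitions for the proof that the units of a cyclic cubic field are open modulo scalars at every
prime. Elements `a + b ω` of `ℤ[ω]`, `ω² + ω + 1 = 0`, act on units by `η ↦ η ^ a * (τ η) ^ b`. -/

set_option autoImplicit false

namespace Pool.Agent.MP_ca7d12_nt

namespace Leo

open NumberField

variable {R : Type*} [CommRing R]

/-- `η ^ (a + b ω)`, where `ω` acts as `τ`. -/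
def upow (τ : R ≃+* R) (η : Rˣ) (a b : ℤ) : Rˣ :=
  η ^ a * (Units.map ((τ : R →+* R) : R →* R) η) ^ b

/-- The coordinates of `(x + y ω) ^ j`. -/
def XY (x y : ℤ) : ℕ → ℤ × ℤ
  | 0 => (1, 0)
  | (j + 1) => (x * (XY x y j).1 - y * (XY x y j).2, y * (XY x y j).1 + (x - y) * (XY x y j).2)

theorem XY_zero (x y : ℤ) : XY x y 0 = (1, 0) := rfl

theorem XY_succ (x y : ℤ) (j : ℕ) : XY x y (j + 1) =
    (x * (XY x y j).1 - y * (XY x y j).2, y * (XY x y j).1 + (x - y) * (XY x y j).2) := rfl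

/-- The norm of `η` (with respect to `τ`) is one. -/
def NormOne (τ : R ≃+* R) (η : Rˣ) : Prop := (η : R) * τ (η : R) * τ (τ (η : R)) = 1

/-- First coordinate of the auxiliary function at `a + b ω`. -/
def FX (τ : R ≃+* R) (U : Rˣ) (T₀ T₁ : ℕ) (c : Fin T₀ → Fin T₁ → R) (a b : ℕ) : R :=
  ∑ i : Fin T₀, ∑ j : Fin T₁, c i j * ((XY a b (i : ℕ)).1 : R) *
    ((U : R) ^ a * (τ (U : R)) ^ b) ^ (j : ℕ)

/-- Second coordinate of the auxiliary function at `a + b ω`. -/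
def FY (τ : R ≃+* R) (U : Rˣ) (T₀ T₁ : ℕ) (c : Fin T₀ → Fin T₁ → R) (a b : ℕ) : R :=
  ∑ i : Fin T₀, ∑ j : Fin T₁, c i j * ((XY a b (i : ℕ)).2 : R) *
    ((U : R) ^ a * (τ (U : R)) ^ b) ^ (j : ℕ)

/-- `v` is good at `p`: not congruent to an integer, and not an eigenvector of `τ` modulo `p` up to
integers. -/
def Good (τ : R ≃+* R) (p : ℕ) (v : R) : Prop :=
  ¬ CycAlg.Sc p v ∧ ∀ ω : ℤ, (p : ℤ) ∣ ω ^ 2 + ω + 1 → ¬ CycAlg.Sc p (τ v - (ω : R) * v)

end Leo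

end Pool.Agent.MP_ca7d12_nt
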