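import Pool.Agent.Lib.MP_ca7d12_nt.Leo.Defs
import Pool.Agent.Lib.MP_ca7d12_nt.ExistsUnit

set_option autoImplicit false

namespace Pool.Agent.MP_ca7d12_nt

namespace Leo

open NumberField

/-- A unit some positive power of which is an integer is an integer (real embedding). -/
theorem int_of_pow_int (K : Type*) [Field K] [NumberField K] (s : K →+* ℝ) (u : (𝓞 K)ˣ) (n : ℕ)
    (hn : 0 < n) (c : ℤ) (h : ((u ^ n : (𝓞 K)ˣ) : 𝓞 K) = (c : 𝓞 K)) :
    ∃ c' : ℤ, (u : 𝓞 K) = (c' : 𝓞 K) := by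
  have hc : IsUnit c := isUnit_of_isUnit_intCast K c (h ▸ (u ^ n).isUnit)
  have h1 : ((u : 𝓞 K) : K) ^ n = (c : K) := by
    have h2 := congrArg (algebraMap (𝓞 K) K) h
    simpa using h2
  have h3 : (s ((u : 𝓞 K) : K)) ^ n = (c : ℝ) := by
    rw [← map_pow, h1, map_intCast]
  have h4 : |s ((u : 𝓞 K) : K)| ^ n = 1 := by
    rw [← abs_pow, h3]
    rcases Int.isUnit_iff.1 hc with rfl | rfl <;> simp
  have h5 : |s ((u : 𝓞 K) : K)| = 1 := (pow_eq_one_iff_of_nonneg (abs_nonneg _) hn.ne').1 h4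
  rcases (abs_eq zero_le_one).1 h5 with h6 | h6
  · refine ⟨1, ?_⟩
    apply RingOfIntegers.ext
    apply s.injective
    rw [h6]
    simp
  · refine ⟨-1, ?_⟩
    apply RingOfIntegers.ext
    apply s.injective
    rw [h6]
    simp

end Leo

end Pool.Agent.MP_ca7d12_nt
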