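import Pool.Agent.Lib.MP_ca7d12_nt.Leo.UpowAlg
import Pool.Agent.Lib.MP_ca7d12_nt.Leo.TorsionFree
import Pool.Agent.Lib.MP_ca7d12_nt.ExistsUnit

set_option autoImplicit false

namespace Pool.Agent.MP_ca7d12_nt

namespace Leo

open NumberField

namespace ExU

theorem XY_add (x y : ℤ) (j k : ℕ) :
    XY x y (j + k) = ((XY x y j).1 * (XY x y k).1 - (XY x y j).2 * (XY x y k).2,
      (XY x y j).2 * (XY x y k).1 + ((XY x y j).1 - (XY x y j).2) * (XY x y k).2) := by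
  induction k with
  | zero => simp [XY_zero]
  | succ k ih =>
    rw [← add_assoc, XY_succ, ih, XY_succ]
    ext
    · simp only; ring
    · simp only; ring

theorem upow_one_base {R : Type*} [CommRing R] (τ : R ≃+* R) (a b : ℤ) :
    upow τ (1 : Rˣ) a b = 1 := by
  simp [upow]

theorem normOne_pow {R : Type*} [CommRing R] (τ : R ≃+* R) (V : Rˣ) (h : NormOne τ V) (n : ℕ) :
    NormOne τ (V ^ n) := by
  unfold NormOne at h ⊢
  rw [Units.val_pow_eq_pow_val, map_pow, map_pow, ← mul_pow, ← mul_pow, h, one_pow]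

theorem pow_add_mul {R : Type*} [CommRing R] (c q w : R) (n : ℕ) :
    ∃ e : R, (c + q * w) ^ n = c ^ n + q * e := by
  obtain ⟨e, he⟩ := Polynomial.powAddExpansion c (q * w) n
  exact ⟨(n : R) * c ^ (n - 1) * w + e * q * w ^ 2, by rw [he]; ring⟩

/-- `p ^ k` divides an integer in `R` implies in `ℤ`. -/
theorem int_dvd_pow {R : Type*} [CommRing R] [IsDomain R] [CharZero R]
    (hR : ∀ q : ℤ, IsUnit (q : R) → IsUnit q) (p : ℕ) (hp : p.Prime) (k : ℕ) :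
    ∀ (i : ℤ) (w : R), (i : R) = (p : R) ^ k * w → (p : ℤ) ^ k ∣ i := by
  induction k with
  | zero => intro i w _; simp
  | succ k ih =>
    intro i w h
    obtain ⟨i', hi'⟩ := CycAlg.int_dvd hR p hp i ((p : R) ^ k * w) (by rw [h]; ring)
    have hp0 : (p : R) ≠ 0 := by exact_mod_cast hp.ne_zero
    have h1 : (p : R) * (i' : R) = (p : R) * ((p : R) ^ k * w) := by
      have : (i : R) = (p : R) * (i' : R) := by rw [hi']; push_cast; ring
      rw [← this, h]; ring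
    have h2 := ih i' w (mul_left_cancel₀ hp0 h1)
    rw [hi', pow_succ, mul_comm]
    exact mul_dvd_mul_left _ h2

theorem pow_congr_one (p : ℕ) (hp : p.Prime) (c : ℤ) (hc : IsCoprime c (p : ℤ)) :
    ((p : ℤ) ^ 2) ∣ c ^ (p * (p - 1)) - 1 := by
  have h1 : c ^ (p - 1) ≡ 1 [ZMOD p] := Int.ModEq.pow_card_sub_one_eq_one hp hc
  have h2 : (p : ℤ) ∣ c ^ (p - 1) - 1 := (Int.modEq_iff_dvd.mp h1.symm)
  have h3 := dvd_sub_pow_of_dvd_sub (R := ℤ) (p := p) h2 1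
  rw [pow_one, one_pow, ← pow_mul] at h3
  rw [mul_comm p (p - 1)]
  exact_mod_cast h3

end ExU

open ExU in
/-- Normalisation: from a unit all whose powers `η ^ (π ^ j)` are congruent to integers modulo `p ^ j`
to a unit `U` with `U ≡ 1` modulo `p ^ 2` and `U ^ (π ^ k) ≡ 1` modulo `p ^ k`. -/
theorem exists_U (K : Type*) [Field K] [NumberField K] (s : K →+* ℝ)
    (τ : 𝓞 K ≃+* 𝓞 K) (hτ : ∀ x, τ (τ (τ x)) = x) (p : ℕ) (hp : p.Prime) (hp3 : p % 3 = 1)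
    (x y : ℤ) (hxy : x ^ 2 - x * y + y ^ 2 = p) (η : (𝓞 K)ˣ) (hη : ∀ c : ℤ, (η : 𝓞 K) ≠ (c : 𝓞 K))
    (hN : NormOne τ η)
    (h : ∀ j : ℕ, ∃ (c : ℤ) (w : 𝓞 K),
      (upow τ η (XY x y j).1 (XY x y j).2 : 𝓞 K) = (c : 𝓞 K) + (p : 𝓞 K) ^ j * w) :
    ∃ U : (𝓞 K)ˣ, NormOne τ U ∧ (∀ c : ℤ, (U : 𝓞 K) ≠ (c : 𝓞 K)) ∧
      (∃ h' : 𝓞 K, (U : 𝓞 K) = 1 + (p : 𝓞 K) ^ 2 * h') ∧
      ∀ k : ℕ, ∃ w : 𝓞 K, (upow τ U (XY x y k).1 (XY x y k).2 : 𝓞 K) = 1 + (p : 𝓞 K) ^ k * w := by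
  have hR : ∀ q : ℤ, IsUnit (q : 𝓞 K) → IsUnit q := isUnit_of_isUnit_intCast K
  have hpp : 0 < p * (p - 1) := Nat.mul_pos hp.pos (Nat.sub_pos_of_lt hp.one_lt)
  set n : ℕ := p * (p - 1) with hn
  set V : (𝓞 K)ˣ := upow τ η (XY x y 2).1 (XY x y 2).2 with hV
  have hNV : NormOne τ V := normOne_upow τ hτ η hN _ _
  have hcomp : ∀ k : ℕ, upow τ V (XY x y k).1 (XY x y k).2 =
      upow τ η (XY x y (2 + k)).1 (XY x y (2 + k)).2 := by
    intro k
    rw [hV, upow_upow τ η hN, XY_add]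
  have hcop : ∀ (j : ℕ) (c : ℤ) (w : 𝓞 K) (W : (𝓞 K)ˣ), 0 < j →
      (W : 𝓞 K) = (c : 𝓞 K) + (p : 𝓞 K) ^ j * w → IsCoprime c (p : ℤ) := by
    intro j c w W hj hW
    refine UnitsA.coprime_of_unit hR c (p : ℤ) (W : 𝓞 K) ((p : 𝓞 K) ^ (j - 1) * w) W.isUnit
      ⟨1, ?_⟩
    rw [hW]
    obtain ⟨i, rfl⟩ : ∃ i, j = i + 1 := ⟨j - 1, by omega⟩
    simp only [Nat.add_sub_cancel]
    push_cast
    ring
  refine ⟨V ^ n, normOne_pow τ V hNV n, ?_, ?_, ?_⟩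
  · intro c hc
    obtain ⟨c₁, hc₁⟩ := int_of_pow_int K s V n hpp c hc
    have hu : IsUnit c₁ := hR c₁ (by rw [← hc₁]; exact V.isUnit)
    have hV2 : V ^ 2 = 1 := by
      ext1
      rw [Units.val_pow_eq_pow_val, hc₁]
      have : c₁ ^ 2 = 1 := by
        rcases Int.isUnit_iff.mp hu with h | h <;> rw [h] <;> norm_num
      rw [Units.val_one]
      exact_mod_cast this
    have h1 : upow τ (upow τ V (x - y) (-y)) (x - y) (-y) = η ^ (p ^ 2) := by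
      rw [upow_upow τ V hNV, hV, upow_upow τ η hN]
      have e1 : (XY x y 2).1 = x ^ 2 - y ^ 2 := by
        simp [XY_succ, XY_zero]; ring
      have e2 : (XY x y 2).2 = 2 * x * y - y ^ 2 := by
        simp [XY_succ, XY_zero]; ring
      have e3 : (XY x y 2).1 * ((x - y) * (x - y) - -y * -y) -
          (XY x y 2).2 * (-y * (x - y) + (x - y - -y) * -y) = (p : ℤ) ^ 2 := by
        rw [e1, e2, ← hxy]; ring
      have e4 : (XY x y 2).2 * ((x - y) * (x - y) - -y * -y) +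
          ((XY x y 2).1 - (XY x y 2).2) * (-y * (x - y) + (x - y - -y) * -y) = 0 := by
        rw [e1, e2]; ring
      rw [e3, e4]
      simp only [upow, zpow_zero, mul_one]
      exact_mod_cast zpow_natCast η (p ^ 2)
    have h2 : (η ^ (p ^ 2)) ^ 2 = 1 := by
      rw [← h1, ← upow_pow, ← upow_pow, hV2, upow_one_base, upow_one_base]
    have h3 : ((η ^ (p ^ 2 * 2) : (𝓞 K)ˣ) : 𝓞 K) = ((1 : ℤ) : 𝓞 K) := by
      rw [pow_mul, h2]; simp
    obtain ⟨c₂, hc₂⟩ := int_of_pow_int K s η (p ^ 2 * 2)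
      (Nat.mul_pos (pow_pos hp.pos 2) two_pos) 1 h3
    exact hη c₂ hc₂
  · obtain ⟨c, w, hc⟩ := h 2
    rw [← hV] at hc
    have hcc := hcop 2 c w V two_pos hc
    obtain ⟨e, he⟩ := pow_add_mul (c : 𝓞 K) ((p : 𝓞 K) ^ 2) w n
    obtain ⟨m, hm⟩ := pow_congr_one p hp c hcc
    rw [← hn] at hm
    have hm' : (c : 𝓞 K) ^ n = 1 + (p : 𝓞 K) ^ 2 * (m : 𝓞 K) := by
      have := congrArg (fun z : ℤ => (z : 𝓞 K)) hm
      push_cast at this
      linear_combination this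
    refine ⟨(m : 𝓞 K) + e, ?_⟩
    rw [Units.val_pow_eq_pow_val, hc, he, hm']
    ring
  · intro k
    have hNW : NormOne τ (upow τ (V ^ n) (XY x y k).1 (XY x y k).2) :=
      normOne_upow τ hτ _ (normOne_pow τ V hNV n) _ _
    obtain ⟨c, w, hc⟩ := h (2 + k)
    have hcc := hcop (2 + k) c w _ (by omega) hc
    have hW : upow τ (V ^ n) (XY x y k).1 (XY x y k).2 =
        (upow τ η (XY x y (2 + k)).1 (XY x y (2 + k)).2) ^ n := by
      rw [upow_pow, hcomp]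
    obtain ⟨e, he⟩ := pow_add_mul (c : 𝓞 K) ((p : 𝓞 K) ^ (2 + k)) w n
    set W : (𝓞 K)ˣ := upow τ (V ^ n) (XY x y k).1 (XY x y k).2 with hWdef
    have hWv : (W : 𝓞 K) = ((c ^ n : ℤ) : 𝓞 K) + (p : 𝓞 K) ^ k * ((p : 𝓞 K) ^ 2 * e) := by
      rw [hW, Units.val_pow_eq_pow_val, hc, he]
      push_cast
      ring
    set t : ℤ := c ^ n with ht
    set g : 𝓞 K := (p : 𝓞 K) ^ 2 * e with hg
    have hNW' : (W : 𝓞 K) * τ (W : 𝓞 K) * τ (τ (W : 𝓞 K)) = 1 := hNW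
    rw [hWv] at hNW'
    simp only [map_add, map_mul, map_pow, map_intCast, map_natCast] at hNW'
    have h4 : ((t ^ 3 - 1 : ℤ) : 𝓞 K) = (p : 𝓞 K) ^ k * (-(
        (t : 𝓞 K) ^ 2 * g + (t : 𝓞 K) ^ 2 * τ g + (t : 𝓞 K) ^ 2 * τ (τ g)
        + (t : 𝓞 K) * (p : 𝓞 K) ^ k * (g * τ g + g * τ (τ g) + τ g * τ (τ g))
        + (p : 𝓞 K) ^ k * (p : 𝓞 K) ^ k * (g * τ g * τ (τ g)))) := by
      push_cast
      linear_combination hNW'
    have h5 : (p : ℤ) ^ k ∣ t ^ 3 - 1 := int_dvd_pow hR p hp k _ _ h4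
    have h6 : (p : ℤ) ∣ t - 1 := by
      have := pow_congr_one p hp c hcc
      exact dvd_trans (dvd_pow_self _ two_ne_zero) this
    have hpp' : Prime (p : ℤ) := Nat.prime_iff_prime_int.mp hp
    have h7 : IsCoprime ((p : ℤ) ^ k) (t ^ 2 + t + 1) := by
      refine IsCoprime.pow_left ?_
      rw [Prime.coprime_iff_not_dvd hpp']
      intro h8
      have h9 : (p : ℤ) ∣ 3 := by
        have h10 : (3 : ℤ) = (t ^ 2 + t + 1) - (t - 1) * (t + 2) := by ring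
        rw [h10]
        exact dvd_sub h8 (Dvd.dvd.mul_right h6 _)
      have h11 : p ∣ 3 := by exact_mod_cast h9
      have := (Nat.prime_dvd_prime_iff_eq hp Nat.prime_three).mp h11
      omega
    have h8 : (p : ℤ) ^ k ∣ t - 1 := by
      refine h7.dvd_of_dvd_mul_right ?_
      have : (t - 1) * (t ^ 2 + t + 1) = t ^ 3 - 1 := by ring
      rw [this]
      exact h5
    obtain ⟨m, hm⟩ := h8
    refine ⟨(m : 𝓞 K) + g, ?_⟩
    rw [hWv]
    have : (t : 𝓞 K) = 1 + (p : 𝓞 K) ^ k * (m : 𝓞 K) := by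
      have := congrArg (fun z : ℤ => (z : 𝓞 K)) hm
      push_cast at this
      linear_combination this
    rw [this]
    ring

end Leo

end Pool.Agent.MP_ca7d12_nt
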