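import Pool.Agent.Lib.MP_ca7d12_nt.Leo.Defs

set_option autoImplicit false

namespace Pool.Agent.MP_ca7d12_nt

namespace Leo

open NumberField

/-- The units which are `1` modulo `P`. -/
private def kcKer {R : Type*} [CommRing R] (P : R) : Subgroup Rˣ :=
  (Units.map (Ideal.Quotient.mk (Ideal.span {P})).toMonoidHom).ker

private theorem kc_mem_ker {R : Type*} [CommRing R] (P : R) (u : Rˣ) :
    u ∈ kcKer P ↔ ∃ w : R, (u : R) = 1 + P * w := by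
  unfold kcKer
  rw [MonoidHom.mem_ker, Units.ext_iff]
  have e : ((Units.map (Ideal.Quotient.mk (Ideal.span {P})).toMonoidHom u :
      (R ⧸ Ideal.span {P})ˣ) : R ⧸ Ideal.span {P}) = Ideal.Quotient.mk (Ideal.span {P}) (u : R) :=
    rfl
  rw [e, Units.val_one, ← map_one (Ideal.Quotient.mk (Ideal.span {P})),
    Ideal.Quotient.mk_eq_mk_iff_sub_mem, Ideal.mem_span_singleton]
  constructor
  · rintro ⟨w, hw⟩
    exact ⟨w, by rw [← hw]; ring⟩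
  · rintro ⟨w, hw⟩
    exact ⟨w, by rw [hw]; ring⟩

/-- If `U ^ (π ^ k) ≡ 1` modulo `p ^ k` for all `k` then `U ^ a * (τ U) ^ b ≡ U ^ (a + b ω)`. -/
theorem key_congr {R : Type*} [CommRing R] (τ : R ≃+* R) (hτ : ∀ x, τ (τ (τ x)) = x)
    (p : ℕ) (x y : ℤ) (U : Rˣ) (hN : NormOne τ U) (k : ℕ)
    (hU : ∃ w : R, (upow τ U (XY x y k).1 (XY x y k).2 : R) = 1 + (p : R) ^ k * w)
    (ω : ℕ) (γ₁ γ₂ : ℤ) (h1 : -(ω : ℤ) = (XY x y k).1 * γ₁ - (XY x y k).2 * γ₂)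
    (h2 : 1 = (XY x y k).2 * γ₁ + ((XY x y k).1 - (XY x y k).2) * γ₂) (a b : ℕ) :
    ∃ w : R, (U : R) ^ a * (τ (U : R)) ^ b = (U : R) ^ (a + b * ω) + (p : R) ^ k * w := by
  generalize (XY x y k).1 = A at hU h1 h2
  generalize (XY x y k).2 = B at hU h1 h2
  have hP : τ ((p : R) ^ k) = (p : R) ^ k := by rw [map_pow, map_natCast]
  generalize (p : R) ^ k = P at hU hP ⊢
  obtain ⟨V, hV⟩ : ∃ V : Rˣ, V = Units.map ((τ : R →+* R) : R →* R) U := ⟨_, rfl⟩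
  have hVv : (V : R) = τ (U : R) := by rw [hV]; rfl
  have hW : Units.map ((τ : R →+* R) : R →* R) V = (U * V)⁻¹ := by
    refine eq_inv_of_mul_eq_one_right (Units.ext ?_)
    have e : ((Units.map ((τ : R →+* R) : R →* R) V : Rˣ) : R) = τ (V : R) := rfl
    rw [Units.val_mul, Units.val_mul, Units.val_one, e, hVv]
    exact hN
  have hη : upow τ U A B = U ^ A * V ^ B := by
    unfold upow
    rw [hV]
  have hτη : Units.map ((τ : R →+* R) : R →* R) (upow τ U A B) = V ^ A * ((U * V)⁻¹) ^ B := by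
    rw [hη, map_mul, map_zpow, map_zpow, ← hV, hW]
  have hker : upow τ U A B ∈ kcKer P := (kc_mem_ker P _).2 hU
  have hker2 : Units.map ((τ : R →+* R) : R →* R) (upow τ U A B) ∈ kcKer P := by
    obtain ⟨w, hw⟩ := hU
    refine (kc_mem_ker _ _).2 ⟨τ w, ?_⟩
    have e : ((Units.map ((τ : R →+* R) : R →* R) (upow τ U A B) : Rˣ) : R) =
        τ (upow τ U A B : R) := rfl
    rw [e, hw, map_add, map_one, map_mul, hP]
  rw [hτη] at hker2
  rw [hη] at hker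
  obtain ⟨ζ, hζ⟩ : ∃ ζ : Rˣ, ζ = (U ^ A * V ^ B) ^ γ₁ * (V ^ A * ((U * V)⁻¹) ^ B) ^ γ₂ := ⟨_, rfl⟩
  have hζk : ζ ^ b ∈ kcKer P := by
    rw [hζ]
    exact pow_mem (mul_mem (zpow_mem hker _) (zpow_mem hker2 _)) _
  have hζU : V = U ^ (ω : ℤ) * ζ := by
    have e1 : (V : Rˣ) = U ^ (ω : ℤ) * (U ^ (-(ω : ℤ)) * V ^ (1 : ℤ)) := by
      rw [zpow_neg, mul_inv_cancel_left, zpow_one]
    have e2 : U ^ (-(ω : ℤ)) * V ^ (1 : ℤ) = ζ := by
      have e3 : A * γ₁ - B * γ₂ = A * γ₁ + -(B * γ₂) := by ring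
      have e4 : B * γ₁ + (A - B) * γ₂ = B * γ₁ + (A * γ₂ + -(B * γ₂)) := by ring
      rw [hζ, h1, h2, e3, e4, zpow_add, zpow_add, zpow_add, mul_zpow, mul_zpow, inv_zpow,
        mul_zpow, inv_zpow, mul_zpow, ← zpow_mul, ← zpow_mul, ← zpow_mul, ← zpow_mul, ← zpow_mul,
        mul_inv, zpow_neg, zpow_neg]
      ac_rfl
    rw [e2] at e1
    exact e1
  obtain ⟨w, hw⟩ := (kc_mem_ker P _).1 hζk
  refine ⟨(U : R) ^ (a + b * ω) * w, ?_⟩
  have e5 : U ^ a * V ^ b = U ^ (a + b * ω) * ζ ^ b := by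
    rw [hζU, zpow_natCast, mul_pow, ← pow_mul, pow_add, mul_comm ω b, mul_assoc]
  have e6 := congrArg (fun u : Rˣ => (u : R)) e5
  have e7 : (U : R) ^ a * (V : R) ^ b = (U : R) ^ (a + b * ω) * ((ζ ^ b : Rˣ) : R) := by
    simpa using e6
  rw [← hVv, e7, hw]
  ring

end Leo

end Pool.Agent.MP_ca7d12_nt
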