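import Pool.Agent.Lib.MP_ca7d12_nt.Leo.Defs

set_option autoImplicit false

namespace Pool.Agent.MP_ca7d12_nt

namespace Leo

open NumberField

/-- Exponential polynomials with distinct nonzero bases are linearly independent. -/
private theorem expPoly {R ι : Type*} [CommRing R] [IsDomain R] [CharZero R] [DecidableEq ι]
    (μ : ι → R) (hμ : Function.Injective μ) (hμ0 : ∀ j, μ j ≠ 0) (s : Finset ι) :
    ∀ Q : ι → Polynomial R, (∀ a : ℕ, ∑ j ∈ s, (Q j).eval (a : R) * μ j ^ a = 0) →
      ∀ j ∈ s, Q j = 0 := by
  induction s using Finset.induction_on with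
  | empty =>
    intro Q _ j hj
    exact absurd hj (Finset.notMem_empty j)
  | insert k s' hk ih =>
    have key : ∀ (d : ℕ) (Q : ι → Polynomial R), (Q k).degree < (d : WithBot ℕ) →
        (∀ a : ℕ, ∑ j ∈ insert k s', (Q j).eval (a : R) * μ j ^ a = 0) →
        ∀ j ∈ s', Q j = 0 := by
      intro d
      induction d with
      | zero =>
        intro Q hd hQ
        have h0 : Q k = 0 := by
          by_contra hne
          rw [Polynomial.degree_eq_natDegree hne] at hd
          have : (Q k).natDegree < 0 := by exact_mod_cast hd
          omega
        apply ih Q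
        intro a
        have := hQ a
        rw [Finset.sum_insert hk, h0, Polynomial.eval_zero, zero_mul, zero_add] at this
        exact this
      | succ d ihd =>
        intro Q hd hQ j hj
        by_cases hQk : Q k = 0
        · apply ih Q _ j hj
          intro a
          have := hQ a
          rw [Finset.sum_insert hk, hQk, Polynomial.eval_zero, zero_mul, zero_add] at this
          exact this
        have hdeg : (Polynomial.C (μ k) * (Polynomial.taylor 1 (Q k)) -
            Polynomial.C (μ k) * Q k).degree < (d : WithBot ℕ) := by
          rw [← mul_sub]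
          have h1 : (Polynomial.taylor 1 (Q k) - Q k).degree < (Q k).degree := by
            have h2 : (Polynomial.taylor 1 (Q k)).degree = (Q k).degree :=
              Polynomial.degree_taylor _ _
            have h3 : Polynomial.taylor 1 (Q k) ≠ 0 := by
              intro h4
              rw [h4, Polynomial.degree_zero] at h2
              exact hQk (Polynomial.degree_eq_bot.1 h2.symm)
            have h5 := Polynomial.degree_sub_lt_left h2 h3 (by
              rw [Polynomial.leadingCoeff, Polynomial.natDegree_taylor,
                Polynomial.coeff_taylor_natDegree])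
            rwa [h2] at h5
          rw [Polynomial.degree_C_mul (hμ0 k)]
          have h6 : (Q k).degree < ((d : WithBot ℕ) + 1) := by exact_mod_cast hd
          have h7 : (Q k).degree ≤ (d : WithBot ℕ) := by
            rw [Polynomial.degree_eq_natDegree hQk] at hd ⊢
            have : (Q k).natDegree < d + 1 := by exact_mod_cast hd
            exact_mod_cast Nat.lt_succ_iff.1 this
          exact lt_of_lt_of_le h1 h7
        have hrec := ihd (fun i => Polynomial.C (μ i) * (Polynomial.taylor 1 (Q i)) -
          Polynomial.C (μ k) * Q i) hdeg (by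
            intro a
            have e1 := hQ (a + 1)
            have e0 := hQ a
            have : ∑ i ∈ insert k s', (Polynomial.C (μ i) * (Polynomial.taylor 1 (Q i)) -
                Polynomial.C (μ k) * Q i).eval (a : R) * μ i ^ a =
                ∑ i ∈ insert k s', (Q i).eval ((a + 1 : ℕ) : R) * μ i ^ (a + 1) -
                μ k * ∑ i ∈ insert k s', (Q i).eval (a : R) * μ i ^ a := by
              rw [Finset.mul_sum, ← Finset.sum_sub_distrib]
              refine Finset.sum_congr rfl fun i _ => ?_
              rw [Polynomial.eval_sub, Polynomial.eval_mul, Polynomial.eval_mul,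
                Polynomial.eval_C, Polynomial.eval_C, Polynomial.taylor_eval]
              push_cast
              ring
            rw [this, e1, e0, mul_zero, sub_zero]) j hj
        by_contra hne
        have h8 : (Polynomial.C (μ j) * (Polynomial.taylor 1 (Q j)) -
          Polynomial.C (μ k) * Q j).coeff (Q j).natDegree = 0 := by
          rw [show Polynomial.C (μ j) * (Polynomial.taylor 1 (Q j)) -
            Polynomial.C (μ k) * Q j = 0 from hrec, Polynomial.coeff_zero]
        rw [Polynomial.coeff_sub, Polynomial.coeff_C_mul, Polynomial.coeff_C_mul,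
          Polynomial.coeff_taylor_natDegree, Polynomial.coeff_natDegree, ← sub_mul] at h8
        rcases mul_eq_zero.1 h8 with h9 | h9
        · have : j = k := hμ (sub_eq_zero.1 h9)
          rw [this] at hj
          exact hk hj
        · exact hne (Polynomial.leadingCoeff_eq_zero.1 h9)
    intro Q hQ
    have hs' : ∀ j ∈ s', Q j = 0 := by
      by_cases hQk : Q k = 0
      · apply ih Q
        intro a
        have := hQ a
        rw [Finset.sum_insert hk, hQk, Polynomial.eval_zero, zero_mul, zero_add] at this
        exact this
      · refine key ((Q k).natDegree + 1) Q ?_ hQ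
        rw [Polynomial.degree_eq_natDegree hQk]
        exact_mod_cast Nat.lt_succ_self _
    intro j hj
    rcases Finset.mem_insert.1 hj with rfl | hj'
    · have hev : ∀ a : ℕ, (Q j).eval (a : R) = 0 := by
        intro a
        have := hQ a
        rw [Finset.sum_insert hk, Finset.sum_eq_zero (fun i hi => by
          rw [hs' i hi, Polynomial.eval_zero, zero_mul]), add_zero] at this
        exact (mul_eq_zero.1 this).resolve_right (pow_ne_zero _ (hμ0 j))
      apply Polynomial.eq_zero_of_infinite_isRoot
      refine Set.Infinite.mono ?_ (Set.infinite_range_of_injective (Nat.cast_injective (R := R)))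
      rintro _ ⟨a, rfl⟩
      exact hev a
    · exact hs' j hj'

/-- Linear independence of `a ^ i * U ^ (j a)` as functions of `a ∈ ℕ`. -/
theorem linindep {R : Type*} [CommRing R] [IsDomain R] [CharZero R] (U : R)
    (hU : ∀ m n : ℕ, U ^ m = U ^ n → m = n) (T₀ T₁ : ℕ) (c : Fin T₀ → Fin T₁ → R)
    (h : ∀ a : ℕ, ∑ i : Fin T₀, ∑ j : Fin T₁, c i j * (a : R) ^ (i : ℕ) * (U ^ a) ^ (j : ℕ) = 0) :
    c = 0 := by
  have hU0 : U ≠ 0 := by
    intro h0
    have := hU 1 2 (by rw [h0]; simp)
    omega
  have hμ : Function.Injective (fun j : Fin T₁ => U ^ (j : ℕ)) := by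
    intro j j' hj
    exact Fin.ext (hU _ _ hj)
  have hQ := expPoly (fun j : Fin T₁ => U ^ (j : ℕ)) hμ (fun j => pow_ne_zero _ hU0) Finset.univ
    (fun j => ∑ i : Fin T₀, Polynomial.C (c i j) * Polynomial.X ^ (i : ℕ)) (by
      intro a
      have ha := h a
      rw [Finset.sum_comm] at ha
      rw [← ha]
      refine Finset.sum_congr rfl fun j _ => ?_
      rw [Polynomial.eval_finsetSum, Finset.sum_mul]
      refine Finset.sum_congr rfl fun i _ => ?_
      rw [Polynomial.eval_mul, Polynomial.eval_C, Polynomial.eval_pow, Polynomial.eval_X]
      congr 1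
      rw [← pow_mul, ← pow_mul, mul_comm])
  funext i j
  have hj := congrArg (fun P : Polynomial R => P.coeff (i : ℕ)) (hQ j (Finset.mem_univ j))
  simp only [Polynomial.finsetSum_coeff, Polynomial.coeff_C_mul, Polynomial.coeff_X_pow,
    Polynomial.coeff_zero] at hj
  rw [Finset.sum_eq_single i] at hj
  · simpa using hj
  · intro i' _ hi'
    have : (i : ℕ) ≠ (i' : ℕ) := fun he => hi' (Fin.ext he.symm)
    rw [if_neg this, mul_zero]
  · intro hi
    exact absurd (Finset.mem_univ i) hi

end Leo

end Pool.Agent.MP_ca7d12_nt
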