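import Pool.Agent.Lib.MP_ca7d12_nt.Leo.Defs

set_option autoImplicit false

namespace Pool.Agent.MP_ca7d12_nt

namespace Leo

open NumberField

/-- A real solution of `x ^ 2 - x y + y ^ 2 = 0` is zero. -/
theorem real_form_zero (x y : ℝ) (h : x ^ 2 - x * y + y ^ 2 = 0) : x = 0 ∧ y = 0 := by
  have h1 : (2 * x - y) ^ 2 + 3 * y ^ 2 = 0 := by nlinarith
  have hy : y = 0 := by
    have : y ^ 2 ≤ 0 := by nlinarith [sq_nonneg (2 * x - y), sq_nonneg y]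
    have h3 : y ^ 2 = 0 := le_antisymm this (sq_nonneg y)
    exact pow_eq_zero_iff (two_ne_zero) |>.1 h3
  refine ⟨?_, hy⟩
  rw [hy] at h
  have h4 : x ^ 2 = 0 := by nlinarith
  exact pow_eq_zero_iff (two_ne_zero) |>.1 h4

/-- Liouville inequality for `X ^ 2 - X Y + Y ^ 2`. -/
theorem liouville (K : Type*) [Field K] [NumberField K] (hK : Module.finrank ℚ K = 3)
    (σ : Fin 3 → K →+* ℝ) (hσ : Function.Injective σ) (p : ℕ) (hp : p.Prime) (s : ℕ) (X Y : 𝓞 K)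
    (h : (p : 𝓞 K) ^ s ∣ X ^ 2 - X * Y + Y ^ 2) (B : ℝ) (hB : 0 ≤ B)
    (hX : ∀ i, |σ i (X : K)| ≤ B) (hY : ∀ i, |σ i (Y : K)| ≤ B)
    (hlt : 27 * B ^ 6 < (p : ℝ) ^ (3 * s)) : X = 0 ∧ Y = 0 := by
  obtain ⟨r, hr⟩ := h
  have hval : ∀ i, σ i ((X ^ 2 - X * Y + Y ^ 2 : 𝓞 K) : K)
      = (σ i (X : K)) ^ 2 - σ i (X : K) * σ i (Y : K) + (σ i (Y : K)) ^ 2 := by
    intro i
    simp [map_add, map_sub, map_mul, map_pow]
  have hval2 : ∀ i, σ i ((X ^ 2 - X * Y + Y ^ 2 : 𝓞 K) : K) = (p : ℝ) ^ s * σ i (r : K) := by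
    intro i
    rw [hr]
    simp [map_mul, map_pow]
  have hbd : ∀ i, |σ i ((X ^ 2 - X * Y + Y ^ 2 : 𝓞 K) : K)| ≤ 3 * B ^ 2 := by
    intro i
    rw [hval i]
    have hx := hX i
    have hy := hY i
    have hx2 : (σ i (X : K)) ^ 2 ≤ B ^ 2 := by
      rw [← sq_abs]; exact pow_le_pow_left₀ (abs_nonneg _) hx 2
    have hy2 : (σ i (Y : K)) ^ 2 ≤ B ^ 2 := by
      rw [← sq_abs]; exact pow_le_pow_left₀ (abs_nonneg _) hy 2
    have hxy : |σ i (X : K) * σ i (Y : K)| ≤ B ^ 2 := by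
      rw [abs_mul, sq]
      exact mul_le_mul hx hy (abs_nonneg _) hB
    obtain ⟨h1, h2⟩ := abs_le.1 hxy
    rw [abs_le]
    constructor
    · nlinarith [sq_nonneg (σ i (X : K)), sq_nonneg (σ i (Y : K))]
    · nlinarith [sq_nonneg (σ i (X : K)), sq_nonneg (σ i (Y : K))]
  by_cases hr0 : r = 0
  · have hz : X ^ 2 - X * Y + Y ^ 2 = 0 := by rw [hr, hr0, mul_zero]
    have h0 := hval 0
    rw [hz] at h0
    have h1 : (σ 0 (X : K)) ^ 2 - σ 0 (X : K) * σ 0 (Y : K) + (σ 0 (Y : K)) ^ 2 = 0 := by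
      rw [← h0]; simp
    obtain ⟨hx, hy⟩ := real_form_zero _ _ h1
    have hinj : Function.Injective (σ 0) := (σ 0).injective
    constructor
    · apply NumberField.RingOfIntegers.coe_injective
      apply hinj
      rw [hx]; simp
    · apply NumberField.RingOfIntegers.coe_injective
      apply hinj
      rw [hy]; simp
  · exfalso
    have hn0 : Algebra.norm ℤ r ≠ 0 := by
      rw [Algebra.norm_ne_zero_iff]
      exact hr0
    have hprod : ∏ i : Fin 3, σ i (r : K) = ((Algebra.norm ℤ r : ℤ) : ℝ) :=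
      prod_embeddings K hK σ hσ r
    have hge : (1 : ℝ) ≤ |∏ i : Fin 3, σ i (r : K)| := by
      rw [hprod, ← Int.cast_abs]
      have : (1 : ℤ) ≤ |Algebra.norm ℤ r| := Int.one_le_abs hn0
      exact_mod_cast this
    have hle : |∏ i : Fin 3, σ i ((X ^ 2 - X * Y + Y ^ 2 : 𝓞 K) : K)| ≤ (3 * B ^ 2) ^ 3 := by
      rw [Finset.abs_prod]
      calc ∏ i : Fin 3, |σ i ((X ^ 2 - X * Y + Y ^ 2 : 𝓞 K) : K)| ≤ ∏ _i : Fin 3, (3 * B ^ 2) :=
            Finset.prod_le_prod (fun i _ => abs_nonneg _) (fun i _ => hbd i)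
        _ = (3 * B ^ 2) ^ 3 := by simp
    have heq : ∏ i : Fin 3, σ i ((X ^ 2 - X * Y + Y ^ 2 : 𝓞 K) : K)
        = (p : ℝ) ^ (3 * s) * ∏ i : Fin 3, σ i (r : K) := by
      rw [Finset.prod_congr rfl (fun i _ => hval2 i), Finset.prod_mul_distrib]
      congr 1
      simp [← pow_mul, mul_comm]
    rw [heq, abs_mul, abs_of_nonneg (by positivity : (0 : ℝ) ≤ (p : ℝ) ^ (3 * s))] at hle
    have hp0 : (0 : ℝ) ≤ (p : ℝ) ^ (3 * s) := by positivity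
    have : (p : ℝ) ^ (3 * s) ≤ (p : ℝ) ^ (3 * s) * |∏ i : Fin 3, σ i (r : K)| :=
      le_mul_of_one_le_right hp0 hge
    have h6 : (3 * B ^ 2) ^ 3 = 27 * B ^ 6 := by ring
    linarith

end Leo

end Pool.Agent.MP_ca7d12_nt
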