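import Pool.Agent.Lib.MP_ca7d12_nt.Leo.Defs

set_option autoImplicit false

namespace Pool.Agent.MP_ca7d12_nt

namespace Leo

open NumberField

theorem omega_norm (x y : ℤ) (k : ℕ) :
    (XY x y k).1 ^ 2 - (XY x y k).1 * (XY x y k).2 + (XY x y k).2 ^ 2 =
      (x ^ 2 - x * y + y ^ 2) ^ k := by
  induction k with
  | zero => simp [XY_zero]
  | succ k ih =>
    rw [XY_succ, pow_succ (x ^ 2 - x * y + y ^ 2) k, ← ih]
    ring

theorem omega_ndvd (p : ℕ) (hp : p.Prime) (x y : ℤ) (hxy : x ^ 2 - x * y + y ^ 2 = p) :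
    ¬ (p : ℤ) ∣ y := by
  have hpi : Prime (p : ℤ) := Nat.prime_iff_prime_int.1 hp
  rintro ⟨c, hc⟩
  have h1 : (p : ℤ) ∣ x ^ 2 := ⟨1 + x * c - c * y, by rw [hc] at hxy ⊢; linear_combination hxy⟩
  obtain ⟨d, hd⟩ := hpi.dvd_of_dvd_pow h1
  have h2 : (p : ℤ) * ((p : ℤ) * (d ^ 2 - d * c + c ^ 2)) = p * 1 := by
    rw [hc, hd] at hxy
    linear_combination hxy
  have h3 : (p : ℤ) * (d ^ 2 - d * c + c ^ 2) = 1 :=
    mul_left_cancel₀ hpi.ne_zero h2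
  exact hpi.not_isUnit (IsUnit.of_mul_eq_one _ h3)

/-- the second coordinate of `(x + y w) ^ k` is prime to `p` -/
theorem omega_cop (p : ℕ) (hp : p.Prime) (hp3 : p % 3 = 1) (x y : ℤ)
    (hxy : x ^ 2 - x * y + y ^ 2 = p) (k : ℕ) : ¬ (p : ℤ) ∣ (XY x y (k + 1)).2 := by
  have hpi : Prime (p : ℤ) := Nat.prime_iff_prime_int.1 hp
  have hy := omega_ndvd p hp x y hxy
  have hcop : IsCoprime y (p : ℤ) := ((Prime.coprime_iff_not_dvd hpi).2 hy).symm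
  obtain ⟨a, b, hab⟩ := hcop
  -- `r = - x a`
  have hr : (p : ℤ) ∣ x + y * (-(x * a)) := ⟨x * b, by linear_combination (-x) * hab⟩
  generalize -(x * a) = r at hr
  obtain ⟨z, hz⟩ := hr
  have hr2 : (p : ℤ) ∣ r ^ 2 + r + 1 := by
    have h1 : (p : ℤ) ∣ y ^ 2 * (r ^ 2 + r + 1) :=
      ⟨1 + z * (x + y * r - 2 * x + y), by linear_combination hxy + (x + y * r - 2 * x + y) * hz⟩
    rcases hpi.dvd_or_dvd h1 with h2 | h2
    · exact absurd (hpi.dvd_of_dvd_pow h2) hy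
    · exact h2
  obtain ⟨t, ht⟩ := hr2
  have h3 : ¬ (p : ℤ) ∣ 1 + 2 * r := by
    rintro ⟨c, hc⟩
    have h4 : (p : ℤ) ∣ 3 := ⟨4 * t - c * (1 + 2 * r), by
      linear_combination 4 * ht - (1 + 2 * r) * hc⟩
    have h5 : p ∣ 3 := by exact_mod_cast h4
    rcases (Nat.dvd_prime Nat.prime_three).1 h5 with h6 | h6
    · exact hp.one_lt.ne' h6
    · omega
  have key : ∀ k : ℕ, (p : ℤ) ∣ (XY x y (k + 1)).1 + (XY x y (k + 1)).2 * r ∧
      ¬ (p : ℤ) ∣ (XY x y (k + 1)).2 := by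
    intro k
    induction k with
    | zero =>
      rw [XY_succ, XY_zero]
      constructor
      · exact ⟨z, by linear_combination hz⟩
      · intro h
        apply hy
        obtain ⟨c, hc⟩ := h
        exact ⟨c, by linear_combination hc⟩
    | succ k ih =>
      obtain ⟨⟨c, hc⟩, h2⟩ := ih
      rw [XY_succ x y (k + 1)]
      generalize (XY x y (k + 1)).1 = X at hc ⊢
      generalize (XY x y (k + 1)).2 = Y at hc h2 ⊢
      constructor
      · exact ⟨X * z + Y * (z * r - y * t), by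
          linear_combination (X + Y * r) * hz - Y * y * ht⟩
      · rintro ⟨e, he⟩
        have h5 : (p : ℤ) ∣ y * (1 + 2 * r) * Y := ⟨y * c + z * Y - e, by
          linear_combination y * hc + Y * hz - he⟩
        rcases hpi.dvd_or_dvd h5 with h6 | h6
        · rcases hpi.dvd_or_dvd h6 with h7 | h7
          · exact hy h7
          · exact h3 h7
        · exact h2 h6
  exact (key k).2

/-- Approximations of the cube root of unity modulo `π ^ k`. -/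
theorem exists_omega (p : ℕ) (hp : p.Prime) (hp3 : p % 3 = 1)
    (x y : ℤ) (hxy : x ^ 2 - x * y + y ^ 2 = p) (k : ℕ) :
    ∃ (ω : ℕ) (γ₁ γ₂ : ℤ), ((p : ℤ) ^ k) ∣ (ω : ℤ) ^ 2 + ω + 1 ∧
      -(ω : ℤ) = (XY x y k).1 * γ₁ - (XY x y k).2 * γ₂ ∧
      1 = (XY x y k).2 * γ₁ + ((XY x y k).1 - (XY x y k).2) * γ₂ := by
  rcases k with _ | k
  · exact ⟨0, 0, 1, by simp, by simp [XY_zero], by simp [XY_zero]⟩
  have hpi : Prime (p : ℤ) := Nat.prime_iff_prime_int.1 hp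
  have hN := omega_norm x y (k + 1)
  have hc := omega_cop p hp hp3 x y hxy k
  rw [hxy] at hN
  generalize (XY x y (k + 1)).1 = X at hN ⊢
  generalize (XY x y (k + 1)).2 = Y at hN hc ⊢
  have hcop : IsCoprime Y ((p : ℤ) ^ (k + 1)) :=
    (((Prime.coprime_iff_not_dvd hpi).2 hc).symm).pow_right
  have hP0 : (p : ℤ) ^ (k + 1) ≠ 0 := pow_ne_zero _ hpi.ne_zero
  have hcop2 := hcop
  obtain ⟨a, b, hab⟩ := hcop
  have h1 : ∃ ω : ℕ, (p : ℤ) ^ (k + 1) ∣ X + Y * ω := by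
    refine ⟨((-(X * a)) % ((p : ℤ) ^ (k + 1))).toNat, ?_⟩
    rw [Int.toNat_of_nonneg (Int.emod_nonneg _ hP0)]
    have h2 := Int.emod_add_mul_ediv (-(X * a)) ((p : ℤ) ^ (k + 1))
    refine ⟨X * b - Y * (-(X * a) / (p : ℤ) ^ (k + 1)), ?_⟩
    linear_combination Y * h2 + (-X) * hab
  obtain ⟨ω, g2, hg2⟩ := h1
  have h3 : (p : ℤ) ^ (k + 1) ∣ Y * (Y - ω * (X - Y)) :=
    ⟨1 + (Y - X) * g2, by linear_combination hN + (Y - X) * hg2⟩
  obtain ⟨g1, hg1⟩ := hcop2.symm.dvd_of_dvd_mul_left h3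
  have e1 : -(ω : ℤ) = X * g1 - Y * g2 := by
    apply mul_left_cancel₀ hP0
    linear_combination X * hg1 - Y * hg2 + (-(ω : ℤ)) * (-hN)
  have e2 : 1 = Y * g1 + (X - Y) * g2 := by
    apply mul_left_cancel₀ hP0
    linear_combination Y * hg1 + (X - Y) * hg2 - hN
  refine ⟨ω, g1, g2, ⟨g1 ^ 2 - g1 * g2 + g2 ^ 2, ?_⟩, e1, e2⟩
  rw [← hN]
  linear_combination (-(ω : ℤ) + (X * g1 - Y * g2) - 1) * e1 + (1 + (Y * g1 + (X - Y) * g2) - (X * g1 - Y * g2)) * e2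

/-- Primes `p ≡ 1 (mod 3)` are norms, with prescribed root modulo `p`. -/
theorem exists_xy (p : ℕ) (hp : p.Prime) (ω : ℤ) (hω : (p : ℤ) ∣ ω ^ 2 + ω + 1) :
    ∃ x y : ℤ, x ^ 2 - x * y + y ^ 2 = p ∧ (p : ℤ) ∣ x + y * ω := by
  have : Fact p.Prime := ⟨hp⟩
  have hpi : Prime (p : ℤ) := Nat.prime_iff_prime_int.1 hp
  have hsq : Nat.sqrt p * Nat.sqrt p < p := by
    refine lt_of_le_of_ne (Nat.sqrt_le p) fun e => ?_
    rcases (Nat.dvd_prime hp).1 (Dvd.intro _ e) with h | h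
    · rw [h] at e
      exact hp.one_lt.ne e
    · rw [h] at e
      have h1 : p * p = p * 1 := by rw [e, mul_one]
      exact hp.one_lt.ne' (Nat.eq_of_mul_eq_mul_left hp.pos h1)
  have hcard : Fintype.card (ZMod p) <
      Fintype.card (Fin (Nat.sqrt p + 1) × Fin (Nat.sqrt p + 1)) := by
    rw [ZMod.card, Fintype.card_prod, Fintype.card_fin]
    exact Nat.lt_succ_sqrt p
  obtain ⟨⟨a, b⟩, ⟨a', b'⟩, hne, heq⟩ := Fintype.exists_ne_map_eq_of_card_lt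
    (fun z : Fin (Nat.sqrt p + 1) × Fin (Nat.sqrt p + 1) =>
      (((z.1 : ℕ) : ℤ) + ((z.2 : ℕ) : ℤ) * ω : ZMod p)) hcard
  have hlt : ((Nat.sqrt p : ℕ) : ℤ) * (Nat.sqrt p : ℕ) < p := by exact_mod_cast hsq
  have ha : ((a : ℕ) : ℤ) ≤ (Nat.sqrt p : ℕ) := by exact_mod_cast Nat.lt_succ_iff.1 a.2
  have hb : ((b : ℕ) : ℤ) ≤ (Nat.sqrt p : ℕ) := by exact_mod_cast Nat.lt_succ_iff.1 b.2
  have ha' : ((a' : ℕ) : ℤ) ≤ (Nat.sqrt p : ℕ) := by exact_mod_cast Nat.lt_succ_iff.1 a'.2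
  have hb' : ((b' : ℕ) : ℤ) ≤ (Nat.sqrt p : ℕ) := by exact_mod_cast Nat.lt_succ_iff.1 b'.2
  have ha0 : (0 : ℤ) ≤ ((a : ℕ) : ℤ) := Int.natCast_nonneg _
  have hb0 : (0 : ℤ) ≤ ((b : ℕ) : ℤ) := Int.natCast_nonneg _
  have ha0' : (0 : ℤ) ≤ ((a' : ℕ) : ℤ) := Int.natCast_nonneg _
  have hb0' : (0 : ℤ) ≤ ((b' : ℕ) : ℤ) := Int.natCast_nonneg _
  have hxy0 : ((a : ℕ) : ℤ) - ((a' : ℕ) : ℤ) ≠ 0 ∨ ((b : ℕ) : ℤ) - ((b' : ℕ) : ℤ) ≠ 0 := by
    by_contra hcon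
    push Not at hcon
    apply hne
    have h1 : (a : ℕ) = a' := by
      have := hcon.1
      omega
    have h2 : (b : ℕ) = b' := by
      have := hcon.2
      omega
    rw [Prod.mk.injEq]
    exact ⟨Fin.ext h1, Fin.ext h2⟩
  have hdvd : (p : ℤ) ∣ (((a : ℕ) : ℤ) - ((a' : ℕ) : ℤ)) + (((b : ℕ) : ℤ) - ((b' : ℕ) : ℤ)) * ω := by
    rw [← ZMod.intCast_zmod_eq_zero_iff_dvd]
    push_cast
    have h3 := heq
    simp only at h3
    push_cast at h3
    linear_combination h3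
  generalize ((Nat.sqrt p : ℕ) : ℤ) = m at *
  have hx1 : ((a : ℕ) : ℤ) - ((a' : ℕ) : ℤ) ≤ m := by linarith
  have hx2 : -m ≤ ((a : ℕ) : ℤ) - ((a' : ℕ) : ℤ) := by linarith
  have hy1 : ((b : ℕ) : ℤ) - ((b' : ℕ) : ℤ) ≤ m := by linarith
  have hy2 : -m ≤ ((b : ℕ) : ℤ) - ((b' : ℕ) : ℤ) := by linarith
  generalize ((a : ℕ) : ℤ) - ((a' : ℕ) : ℤ) = x at *
  generalize ((b : ℕ) : ℤ) - ((b' : ℕ) : ℤ) = y at *
  refine ⟨x, y, ?_, hdvd⟩
  obtain ⟨z, hz⟩ := hdvd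
  obtain ⟨t, ht⟩ := hω
  have hpos : 0 < x ^ 2 - x * y + y ^ 2 := by
    rcases hxy0 with h | h
    · have : 0 < x ^ 2 := by positivity
      nlinarith [sq_nonneg (2 * y - x)]
    · have : 0 < y ^ 2 := by positivity
      nlinarith [sq_nonneg (2 * x - y)]
  have hlt3 : x ^ 2 - x * y + y ^ 2 < 3 * p := by
    have h1 : x ^ 2 ≤ m * m := by nlinarith
    have h2 : y ^ 2 ≤ m * m := by nlinarith
    have h3 : -(x * y) ≤ m * m := by nlinarith [sq_nonneg (x + y)]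
    linarith
  have hd : (p : ℤ) ∣ x ^ 2 - x * y + y ^ 2 :=
    ⟨z * (x - y * ω - y) + y ^ 2 * t, by
      linear_combination (x - y * ω - y) * hz + y ^ 2 * ht⟩
  obtain ⟨q, hq⟩ := hd
  have hp0 : (0 : ℤ) < p := by exact_mod_cast hp.pos
  have hq0 : 0 < q := by
    by_contra hcon
    push Not at hcon
    nlinarith
  have hq3 : q < 3 := by
    by_contra hcon
    push Not at hcon
    nlinarith
  have hq12 : q = 1 ∨ q = 2 := by omega
  rcases hq12 with h | h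
  · rw [hq, h, mul_one]
  · exfalso
    rw [h] at hq
    have hev : x % 2 = 0 ∧ y % 2 = 0 := by
      rcases Int.emod_two_eq_zero_or_one x with h1 | h1 <;>
      rcases Int.emod_two_eq_zero_or_one y with h2 | h2
      · exact ⟨h1, h2⟩
      · exfalso
        obtain ⟨c, hc⟩ : ∃ c, x = 2 * c := ⟨x / 2, by omega⟩
        obtain ⟨e, he⟩ : ∃ e, y = 2 * e + 1 := ⟨y / 2, by omega⟩
        rw [hc, he] at hq
        have h4 : 2 * (2 * c ^ 2 - c * (2 * e + 1) + 2 * e ^ 2 + 2 * e - p) = -1 := by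
          linear_combination hq
        omega
      · exfalso
        obtain ⟨c, hc⟩ : ∃ c, x = 2 * c + 1 := ⟨x / 2, by omega⟩
        obtain ⟨e, he⟩ : ∃ e, y = 2 * e := ⟨y / 2, by omega⟩
        rw [hc, he] at hq
        have h4 : 2 * (2 * c ^ 2 + 2 * c - (2 * c + 1) * e + 2 * e ^ 2 - p) = -1 := by
          linear_combination hq
        omega
      · exfalso
        obtain ⟨c, hc⟩ : ∃ c, x = 2 * c + 1 := ⟨x / 2, by omega⟩
        obtain ⟨e, he⟩ : ∃ e, y = 2 * e + 1 := ⟨y / 2, by omega⟩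
        rw [hc, he] at hq
        have h4 : 2 * (2 * c ^ 2 + 2 * c - (2 * c * e + c + e) + 2 * e ^ 2 + 2 * e - p) = -1 := by
          linear_combination hq
        omega
    obtain ⟨c, hc⟩ : ∃ c, x = 2 * c := ⟨x / 2, by omega⟩
    obtain ⟨e, he⟩ : ∃ e, y = 2 * e := ⟨y / 2, by omega⟩
    have h5 : (p : ℤ) = 2 * (c ^ 2 - c * e + e ^ 2) := by
      rw [hc, he] at hq
      linarith
    have h6 : p = 2 := by
      have h7 : 2 ∣ p := by
        have : (2 : ℤ) ∣ p := ⟨_, h5⟩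
        exact_mod_cast this
      exact ((Nat.prime_dvd_prime_iff_eq Nat.prime_two hp).1 h7).symm
    rw [h6] at ht
    push_cast at ht
    rcases Int.even_or_odd' ω with ⟨u, hu | hu⟩
    · rw [hu] at ht
      have h8 : 2 * (2 * u ^ 2 + u - t) = -1 := by linear_combination ht
      omega
    · rw [hu] at ht
      have h8 : 2 * (2 * u ^ 2 + 3 * u + 1 - t) = -1 := by linear_combination ht
      omega

end Leo

end Pool.Agent.MP_ca7d12_nt
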