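import Pool.Agent.Lib.MP_ca7d12_nt.Leo.Defs

set_option autoImplicit false

namespace Pool.Agent.MP_ca7d12_nt

namespace Leo

open NumberField

theorem dvd_cancel_of_not_dvd {R : Type*} [CommRing R] [IsDomain R] [CharZero R] (p : ℕ)
    (hp : p.Prime) (w K : ℕ) (d : ℤ) (hd : ¬ ((p : ℤ) ^ (w + 1) ∣ d)) (y : R)
    (h : (p : R) ^ K ∣ (d : R) * y) : (p : R) ^ (K - w) ∣ y := by
  by_cases hK : K ≤ w
  · rw [Nat.sub_eq_zero_of_le hK, pow_zero]
    exact one_dvd _
  push Not at hK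
  have hp' : Prime (p : ℤ) := Nat.prime_iff_prime_int.1 hp
  have hfin : FiniteMultiplicity (p : ℤ) d := ⟨w, hd⟩
  obtain ⟨t, hdt, ht⟩ := hfin.exists_eq_pow_mul_and_not_dvd
  obtain ⟨v, hv0⟩ : ∃ v, v = multiplicity (p : ℤ) d := ⟨_, rfl⟩
  rw [← hv0] at hdt
  have hv : v ≤ w := by
    by_contra hcon
    push Not at hcon
    exact hd (hdt ▸ Dvd.dvd.mul_right (pow_dvd_pow _ hcon) _)
  have hpR : (p : R) ≠ 0 := by
    exact_mod_cast hp.ne_zero
  obtain ⟨m, hm⟩ := h
  have h1 : (t : R) * y = (p : R) ^ (K - v) * m := by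
    have h2 : (p : R) ^ v * ((t : R) * y) = (p : R) ^ v * ((p : R) ^ (K - v) * m) := by
      rw [← mul_assoc ((p : R) ^ v) ((p : R) ^ (K - v)) m, ← pow_add,
        Nat.add_sub_cancel' (hv.trans hK.le), ← hm, hdt]
      push_cast
      ring
    exact mul_left_cancel₀ (pow_ne_zero _ hpR) h2
  have hcop : IsCoprime (p : ℤ) t := (Prime.coprime_iff_not_dvd hp').2 ht
  have hcopR : IsCoprime ((p : R) ^ (K - v)) (t : R) := by
    have h3 := (hcop.map (Int.castRingHom R)).pow_left (m := K - v)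
    simpa using h3
  have h4 : (p : R) ^ (K - v) ∣ (t : R) * y := ⟨m, h1⟩
  exact (pow_dvd_pow _ (Nat.sub_le_sub_left hv K)).trans (hcopR.dvd_of_dvd_mul_left h4)

theorem schwarz_aux {R : Type*} [CommRing R] [IsDomain R] [CharZero R] (p : ℕ) (hp : p.Prime)
    (w : ℕ) (T : ℕ) (s : ℕ) (x : ℕ) (N : ℕ) : ∀ (K A : ℕ) (F : Polynomial R)
    (_ : ∀ n : ℕ, (p : R) ^ (n + A - T) ∣ F.coeff n) (z : Fin N → ℕ)
    (_ : ∀ i j, i ≠ j → ¬ ((p : ℤ) ^ (w + 1) ∣ (z i : ℤ) - (z j : ℤ)))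
    (_ : ∀ i, (p : R) ^ K ∣ F.eval (z i : R)) (_ : s + T ≤ N + A) (_ : s + N * w ≤ K),
    (p : R) ^ s ∣ F.eval (x : R) := by
  induction N with
  | zero =>
    intro K A F hF z hz hzero hs hsK
    rw [Polynomial.eval_eq_sum_range]
    refine Finset.dvd_sum fun i _ => ?_
    exact ((pow_dvd_pow _ (by omega)).trans (hF i)).mul_right _
  | succ N ih =>
    intro K A F hF z hz hzero hs hsK
    have hsK' : s + (N * w + w) ≤ K := by rwa [add_mul, one_mul] at hsK
    obtain ⟨a, ha⟩ : ∃ a : ℕ, a = z 0 := ⟨_, rfl⟩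
    obtain ⟨G, hG⟩ : ∃ G : Polynomial R, G = F /ₘ (Polynomial.X - Polynomial.C (a : R)) :=
      ⟨_, rfl⟩
    have hdiv : ∀ y : R, F.eval y = F.eval (a : R) + (y - a) * G.eval y := by
      intro y
      have h1 := Polynomial.modByMonic_add_div F (Polynomial.X - Polynomial.C (a : R))
      rw [Polynomial.modByMonic_X_sub_C_eq_C_eval, ← hG] at h1
      have h2 := congrArg (Polynomial.eval y) h1
      simp only [Polynomial.eval_add, Polynomial.eval_mul, Polynomial.eval_sub, Polynomial.eval_X,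
        Polynomial.eval_C] at h2
      exact h2.symm
    have hGc : ∀ n : ℕ, (p : R) ^ (n + (A + 1) - T) ∣ G.coeff n := by
      intro n
      rw [hG, Polynomial.coeff_divByMonic_X_sub_C]
      refine Finset.dvd_sum fun i hi => ?_
      have hi' := (Finset.mem_Icc.1 hi).1
      exact ((pow_dvd_pow _ (by omega)).trans (hF i)).mul_left _
    have h3 := ih (K - w) (A + 1) G hGc (fun i => z i.succ)
      (fun i j hij => hz _ _ (fun h => hij (Fin.succ_injective _ h))) (fun i => by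
        refine dvd_cancel_of_not_dvd p hp w K ((z i.succ : ℤ) - (a : ℤ)) ?_ _ ?_
        · rw [ha]
          exact hz _ _ (Fin.succ_ne_zero i)
        · have h4 := hdiv (z i.succ : R)
          have h5 : (((z i.succ : ℤ) - (a : ℤ) : ℤ) : R) * G.eval (z i.succ : R) =
              F.eval (z i.succ : R) - F.eval (a : R) := by
            rw [h4]
            push_cast
            ring
          rw [h5]
          refine dvd_sub (hzero _) ?_
          rw [ha]
          exact hzero 0) (by omega) (by omega)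
    rw [hdiv]
    refine dvd_add ?_ (h3.mul_left _)
    rw [ha]
    exact (pow_dvd_pow _ (by omega)).trans (hzero 0)

/-- A `p`-adic Schwarz lemma for polynomials. -/
theorem schwarz {R : Type*} [CommRing R] [IsDomain R] [CharZero R] (p : ℕ) (hp : p.Prime)
    (w : ℕ) (K : ℕ) (N : ℕ) (T : ℕ) (F : Polynomial R)
    (hF : ∀ n : ℕ, (p : R) ^ (n - T) ∣ F.coeff n) (z : Fin N → ℕ)
    (hz : ∀ i j, i ≠ j → ¬ ((p : ℤ) ^ (w + 1) ∣ (z i : ℤ) - (z j : ℤ)))
    (hzero : ∀ i, (p : R) ^ K ∣ F.eval (z i : R)) (s : ℕ) (hs : s + T ≤ N) (hsK : s + N * w ≤ K)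
    (x : ℕ) : (p : R) ^ s ∣ F.eval (x : R) :=
  schwarz_aux p hp w T s x N K 0 F hF z hz hzero hs hsK

end Leo

end Pool.Agent.MP_ca7d12_nt
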