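import Pool.Agent.Lib.MP_ca7d12_nt.Leo.Defs

set_option autoImplicit false

namespace Pool.Agent.MP_ca7d12_nt

namespace Leo

open NumberField

/-- `XY` computes powers of `a + b ω` modulo `ω ^ 2 + ω + 1`. -/
theorem XY_eval (a b ω : ℤ) (i : ℕ) :
    (ω ^ 2 + ω + 1) ∣ (XY a b i).1 + (XY a b i).2 * ω - (a + b * ω) ^ i := by
  induction i with
  | zero => simp [XY_zero]
  | succ i ih =>
    rw [XY_succ]
    have h : (a * (XY a b i).1 - b * (XY a b i).2) +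
        (b * (XY a b i).1 + (a - b) * (XY a b i).2) * ω - (a + b * ω) ^ (i + 1) =
        (a + b * ω) * ((XY a b i).1 + (XY a b i).2 * ω - (a + b * ω) ^ i) -
          b * (XY a b i).2 * (ω ^ 2 + ω + 1) := by ring
    rw [h]
    exact dvd_sub (ih.mul_left _) (Dvd.intro_left _ rfl)

theorem XY_norm (a b : ℤ) (i : ℕ) :
    (XY a b i).1 ^ 2 - (XY a b i).1 * (XY a b i).2 + (XY a b i).2 ^ 2 =
      (a ^ 2 - a * b + b ^ 2) ^ i := by
  induction i with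
  | zero => simp [XY_zero]
  | succ i ih =>
    rw [XY_succ, pow_succ (a ^ 2 - a * b + b ^ 2) i, ← ih]
    ring

theorem XY_bound (a b M : ℤ) (ha : 0 ≤ a) (hb : 0 ≤ b) (haM : a ≤ M) (hbM : b ≤ M) (i : ℕ) :
    |(XY a b i).1| ≤ (2 * M) ^ i ∧ |(XY a b i).2| ≤ (2 * M) ^ i := by
  induction i with
  | zero => simp [XY_zero]
  | succ i ih =>
    obtain ⟨h1, h2⟩ := ih
    have hM : 0 ≤ M := ha.trans haM
    rw [XY_succ, pow_succ]
    have e1 : |a| ≤ M := by rw [abs_of_nonneg ha]; exact haM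
    have e2 : |b| ≤ M := by rw [abs_of_nonneg hb]; exact hbM
    have e3 : |a - b| ≤ M := by rw [abs_le]; constructor <;> linarith
    have f1 : ∀ u v : ℤ, |u| ≤ M → |v| ≤ (2 * M) ^ i → |u * v| ≤ M * (2 * M) ^ i := by
      intro u v hu hv
      rw [abs_mul]
      exact mul_le_mul hu hv (abs_nonneg v) hM
    constructor
    · calc |a * (XY a b i).1 - b * (XY a b i).2|
          ≤ |a * (XY a b i).1| + |b * (XY a b i).2| := abs_sub _ _
        _ ≤ M * (2 * M) ^ i + M * (2 * M) ^ i := add_le_add (f1 _ _ e1 h1) (f1 _ _ e2 h2)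
        _ = (2 * M) ^ i * (2 * M) := by ring
    · calc |b * (XY a b i).1 + (a - b) * (XY a b i).2|
          ≤ |b * (XY a b i).1| + |(a - b) * (XY a b i).2| := abs_add_le _ _
        _ ≤ M * (2 * M) ^ i + M * (2 * M) ^ i := add_le_add (f1 _ _ e2 h1) (f1 _ _ e3 h2)
        _ = (2 * M) ^ i * (2 * M) := by ring

/-- The points `a + b ω`, `a, b < n`, are `p`-adically separated. -/
theorem separated (p : ℕ) (hp : p.Prime) (n w k : ℕ) (hw : 4 * n ^ 2 < p ^ (w + 1)) (hk : w + 1 ≤ k)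
    (ω : ℕ) (hω : ((p : ℤ) ^ k) ∣ (ω : ℤ) ^ 2 + ω + 1) (a b a' b' : ℕ) (ha : a < n) (hb : b < n)
    (ha' : a' < n) (hb' : b' < n) (hne : (a, b) ≠ (a', b')) :
    ¬ ((p : ℤ) ^ (w + 1) ∣ ((a + b * ω : ℕ) : ℤ) - ((a' + b' * ω : ℕ) : ℤ)) := by
  intro h
  obtain ⟨x, hx⟩ : ∃ x : ℤ, x = (a : ℤ) - a' := ⟨_, rfl⟩
  obtain ⟨y, hy⟩ : ∃ y : ℤ, y = (b : ℤ) - b' := ⟨_, rfl⟩
  have h1 : (p : ℤ) ^ (w + 1) ∣ x + y * ω := by
    have e : ((a + b * ω : ℕ) : ℤ) - ((a' + b' * ω : ℕ) : ℤ) = x + y * ω := by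
      rw [hx, hy]; push_cast; ring
    rwa [e] at h
  have h2 : (p : ℤ) ^ (w + 1) ∣ (ω : ℤ) ^ 2 + ω + 1 := (pow_dvd_pow _ hk).trans hω
  have h3 : (p : ℤ) ^ (w + 1) ∣ x ^ 2 - x * y + y ^ 2 := by
    have e : x ^ 2 - x * y + y ^ 2 =
        (x + y * ω) * (x - y - y * ω) + y ^ 2 * ((ω : ℤ) ^ 2 + ω + 1) := by ring
    rw [e]
    exact dvd_add (h1.mul_right _) (h2.mul_left _)
  have hxy : x ≠ 0 ∨ y ≠ 0 := by
    by_contra hc
    push Not at hc
    apply hne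
    have e1 : a = a' := by have := hc.1; omega
    have e2 : b = b' := by have := hc.2; omega
    rw [e1, e2]
  have hpos : 0 < x ^ 2 - x * y + y ^ 2 := by
    rcases hxy with hh | hh
    · have := sq_pos_of_ne_zero hh
      nlinarith [sq_nonneg (x - 2 * y)]
    · have := sq_pos_of_ne_zero hh
      nlinarith [sq_nonneg (y - 2 * x)]
  have hle := Int.le_of_dvd hpos h3
  have hx1 : |x| ≤ n := by rw [hx, abs_le]; constructor <;> omega
  have hy1 : |y| ≤ n := by rw [hy, abs_le]; constructor <;> omega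
  have hx2 : x ^ 2 ≤ (n : ℤ) ^ 2 := by
    rw [← sq_abs x]
    exact pow_le_pow_left₀ (abs_nonneg x) hx1 2
  have hy2 : y ^ 2 ≤ (n : ℤ) ^ 2 := by
    rw [← sq_abs y]
    exact pow_le_pow_left₀ (abs_nonneg y) hy1 2
  have hw' : 4 * (n : ℤ) ^ 2 < (p : ℤ) ^ (w + 1) := by exact_mod_cast hw
  nlinarith [sq_nonneg (x + y)]

end Leo

end Pool.Agent.MP_ca7d12_nt
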