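import Pool.Agent.Lib.MP_ca7d12_nt.Leo.Approx
import Pool.Agent.Lib.MP_ca7d12_nt.Leo.Schwarz
import Pool.Agent.Lib.MP_ca7d12_nt.Leo.KeyCongr
import Pool.Agent.Lib.MP_ca7d12_nt.Leo.XYlem
import Pool.Agent.Lib.MP_ca7d12_nt.Leo.Omega

set_option autoImplicit false

namespace Pool.Agent.MP_ca7d12_nt

namespace Leo

open NumberField

/-- The auxiliary function at `a + b ω` modulo `p ^ K`. -/
private theorem padicSmall_congr {R : Type*} [CommRing R] (τ : R ≃+* R) (p : ℕ) (U : Rˣ)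
    (T₀ T₁ : ℕ) (c : Fin T₀ → Fin T₁ → R) (K ω : ℕ)
    (hω : ((p : ℤ) ^ K) ∣ (ω : ℤ) ^ 2 + ω + 1) (a b : ℕ)
    (hkey : ∃ w : R, (U : R) ^ a * (τ (U : R)) ^ b = (U : R) ^ (a + b * ω) + (p : R) ^ K * w) :
    (p : R) ^ K ∣ FX τ U T₀ T₁ c a b + (ω : R) * FY τ U T₀ T₁ c a b -
      ∑ i : Fin T₀, ∑ j : Fin T₁,
        c i j * ((a + b * ω : ℕ) : R) ^ (i : ℕ) * (U : R) ^ ((j : ℕ) * (a + b * ω)) := by
  obtain ⟨w, hw⟩ := hkey
  have hA : (p : R) ^ K ∣ (U : R) ^ a * (τ (U : R)) ^ b - (U : R) ^ (a + b * ω) :=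
    ⟨w, by rw [hw]; ring⟩
  have hX : ∀ i : ℕ, (p : R) ^ K ∣ ((XY a b i).1 : R) + ((XY a b i).2 : R) * (ω : R) -
      ((a + b * ω : ℕ) : R) ^ i := by
    intro i
    obtain ⟨q, hq⟩ := hω.trans (XY_eval (a : ℤ) (b : ℤ) (ω : ℤ) i)
    refine ⟨(q : R), ?_⟩
    have h1 := congrArg (Int.cast : ℤ → R) hq
    push_cast at h1 ⊢
    exact h1
  have e : FX τ U T₀ T₁ c a b + (ω : R) * FY τ U T₀ T₁ c a b -
      ∑ i : Fin T₀, ∑ j : Fin T₁,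
        c i j * ((a + b * ω : ℕ) : R) ^ (i : ℕ) * (U : R) ^ ((j : ℕ) * (a + b * ω)) =
      ∑ i : Fin T₀, ∑ j : Fin T₁, (c i j * (((XY a b i).1 : R) + ((XY a b i).2 : R) * (ω : R)) *
        ((U : R) ^ a * (τ (U : R)) ^ b) ^ (j : ℕ) -
        c i j * ((a + b * ω : ℕ) : R) ^ (i : ℕ) * (U : R) ^ ((j : ℕ) * (a + b * ω))) := by
    unfold FX FY
    rw [Finset.mul_sum, ← Finset.sum_add_distrib, ← Finset.sum_sub_distrib]
    refine Finset.sum_congr rfl fun i _ => ?_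
    rw [Finset.mul_sum, ← Finset.sum_add_distrib, ← Finset.sum_sub_distrib]
    refine Finset.sum_congr rfl fun j _ => ?_
    ring
  rw [e]
  refine Finset.dvd_sum fun i _ => Finset.dvd_sum fun j _ => ?_
  have hpow : (p : R) ^ K ∣ ((U : R) ^ a * (τ (U : R)) ^ b) ^ (j : ℕ) -
      (U : R) ^ ((j : ℕ) * (a + b * ω)) := by
    rw [mul_comm (j : ℕ), pow_mul]
    exact hA.trans (sub_dvd_pow_sub_pow _ _ _)
  have e2 : c i j * (((XY a b i).1 : R) + ((XY a b i).2 : R) * (ω : R)) *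
        ((U : R) ^ a * (τ (U : R)) ^ b) ^ (j : ℕ) -
        c i j * ((a + b * ω : ℕ) : R) ^ (i : ℕ) * (U : R) ^ ((j : ℕ) * (a + b * ω)) =
      c i j * ((U : R) ^ a * (τ (U : R)) ^ b) ^ (j : ℕ) *
        (((XY a b i).1 : R) + ((XY a b i).2 : R) * (ω : R) - ((a + b * ω : ℕ) : R) ^ (i : ℕ)) +
      c i j * ((a + b * ω : ℕ) : R) ^ (i : ℕ) *
        (((U : R) ^ a * (τ (U : R)) ^ b) ^ (j : ℕ) - (U : R) ^ ((j : ℕ) * (a + b * ω))) := by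
    ring
  rw [e2]
  exact dvd_add (dvd_mul_of_dvd_right (hX i) _) (dvd_mul_of_dvd_right hpow _)

/-- If the auxiliary function vanishes on the box of side `n` then its values are divisible by
`p ^ (n ^ 2 - T₀)`. -/
theorem padic_small {R : Type*} [CommRing R] [IsDomain R] [CharZero R] (τ : R ≃+* R)
    (hτ : ∀ x, τ (τ (τ x)) = x) (p : ℕ) (hp : p.Prime) (hp3 : p % 3 = 1)
    (x y : ℤ) (hxy : x ^ 2 - x * y + y ^ 2 = p) (U : Rˣ) (hN : NormOne τ U)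
    (hU2 : ∃ h' : R, (U : R) = 1 + (p : R) ^ 2 * h')
    (hU : ∀ k : ℕ, ∃ w : R, (upow τ U (XY x y k).1 (XY x y k).2 : R) = 1 + (p : R) ^ k * w)
    (T₀ T₁ : ℕ) (c : Fin T₀ → Fin T₁ → R) (n : ℕ)
    (hX : ∀ a < n, ∀ b < n, FX τ U T₀ T₁ c a b = 0)
    (hY : ∀ a < n, ∀ b < n, FY τ U T₀ T₁ c a b = 0) (s : ℕ) (hs : s + T₀ ≤ n ^ 2) (a b : ℕ) :
    (p : R) ^ s ∣ (FX τ U T₀ T₁ c a b) ^ 2 - FX τ U T₀ T₁ c a b * FY τ U T₀ T₁ c a b +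
      (FY τ U T₀ T₁ c a b) ^ 2 := by
  obtain ⟨w, hw⟩ : ∃ w : ℕ, 4 * n ^ 2 < p ^ (w + 1) :=
    ⟨4 * n ^ 2, (Nat.lt_pow_self hp.one_lt).trans (Nat.pow_lt_pow_right hp.one_lt (by omega))⟩
  obtain ⟨K, hKs, hKw, hKN⟩ : ∃ K : ℕ, s ≤ K ∧ w + 1 ≤ K ∧ s + (n * n) * w ≤ K :=
    ⟨s + (n * n) * w + (w + 1), by omega, by omega, by omega⟩
  obtain ⟨ω, γ₁, γ₂, hω, h1, h2⟩ := exists_omega p hp hp3 x y hxy K
  obtain ⟨h', hh'⟩ := hU2
  obtain ⟨F, hF1, hF2⟩ := approx p hp h' T₀ T₁ c K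
  have hmain : ∀ a b : ℕ, (p : R) ^ K ∣ FX τ U T₀ T₁ c a b + (ω : R) * FY τ U T₀ T₁ c a b -
      F.eval ((a + b * ω : ℕ) : R) := by
    intro a b
    have h3 := padicSmall_congr τ p U T₀ T₁ c K ω hω a b
      (key_congr τ hτ p x y U hN K (hU K) ω γ₁ γ₂ h1 h2 a b)
    obtain ⟨v, hv⟩ := hF1 (a + b * ω)
    rw [← hh'] at hv
    rw [hv] at h3
    have h4 := dvd_add h3 (Dvd.intro v rfl : (p : R) ^ K ∣ (p : R) ^ K * v)
    have e : FX τ U T₀ T₁ c a b + (ω : R) * FY τ U T₀ T₁ c a b -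
        (F.eval ((a + b * ω : ℕ) : R) + (p : R) ^ K * v) + (p : R) ^ K * v =
        FX τ U T₀ T₁ c a b + (ω : R) * FY τ U T₀ T₁ c a b - F.eval ((a + b * ω : ℕ) : R) := by
      ring
    rw [e] at h4
    exact h4
  have hzero : ∀ i : Fin (n * n), (p : R) ^ K ∣
      F.eval ((((finProdFinEquiv.symm i).1 : ℕ) + ((finProdFinEquiv.symm i).2 : ℕ) * ω : ℕ) : R) := by
    intro i
    have h3 := hmain (finProdFinEquiv.symm i).1 (finProdFinEquiv.symm i).2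
    rw [hX _ (Fin.is_lt _) _ (Fin.is_lt _), hY _ (Fin.is_lt _) _ (Fin.is_lt _), mul_zero,
      add_zero, zero_sub, dvd_neg] at h3
    exact h3
  have hsep : ∀ i j : Fin (n * n), i ≠ j → ¬ ((p : ℤ) ^ (w + 1) ∣
      ((((finProdFinEquiv.symm i).1 : ℕ) + ((finProdFinEquiv.symm i).2 : ℕ) * ω : ℕ) : ℤ) -
      ((((finProdFinEquiv.symm j).1 : ℕ) + ((finProdFinEquiv.symm j).2 : ℕ) * ω : ℕ) : ℤ)) := by
    intro i j hij
    refine separated p hp n w K hw hKw ω hω _ _ _ _ (Fin.is_lt _) (Fin.is_lt _) (Fin.is_lt _)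
      (Fin.is_lt _) fun he => hij ?_
    rw [Prod.mk.injEq] at he
    refine finProdFinEquiv.symm.injective (Prod.ext (Fin.ext he.1) (Fin.ext he.2))
  have hsc := schwarz p hp w K (n * n) T₀ F hF2
    (fun i : Fin (n * n) =>
      ((finProdFinEquiv.symm i).1 : ℕ) + ((finProdFinEquiv.symm i).2 : ℕ) * ω)
    hsep hzero s (by rw [← sq]; exact hs) hKN (a + b * ω)
  have h5 : (p : R) ^ s ∣ FX τ U T₀ T₁ c a b + (ω : R) * FY τ U T₀ T₁ c a b := by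
    have h6 := dvd_add ((pow_dvd_pow (p : R) hKs).trans (hmain a b)) hsc
    rw [sub_add_cancel] at h6
    exact h6
  have h7 : (p : R) ^ s ∣ (ω : R) ^ 2 + ω + 1 := by
    obtain ⟨q, hq⟩ := (pow_dvd_pow (p : ℤ) hKs).trans hω
    refine ⟨(q : R), ?_⟩
    have h8 := congrArg (Int.cast : ℤ → R) hq
    push_cast at h8
    exact h8
  have e : (FX τ U T₀ T₁ c a b) ^ 2 - FX τ U T₀ T₁ c a b * FY τ U T₀ T₁ c a b +
      (FY τ U T₀ T₁ c a b) ^ 2 =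
      (FX τ U T₀ T₁ c a b + (ω : R) * FY τ U T₀ T₁ c a b) *
        (FX τ U T₀ T₁ c a b - FY τ U T₀ T₁ c a b - (ω : R) * FY τ U T₀ T₁ c a b) +
      ((ω : R) ^ 2 + ω + 1) * (FY τ U T₀ T₁ c a b) ^ 2 := by
    ring
  rw [e]
  exact dvd_add (dvd_mul_of_dvd_left h5 _) (dvd_mul_of_dvd_left h7 _)

end Leo

end Pool.Agent.MP_ca7d12_nt
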