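import Pool.Agent.Lib.MP_ca7d12_nt.Leo.Defs

set_option autoImplicit false

namespace Pool.Agent.MP_ca7d12_nt

namespace Leo

open NumberField

theorem params_fifty (u : ℕ) (hu : 10 ≤ u) : 50 * u < 2 ^ u := by
  induction u, hu using Nat.le_induction with
  | base => norm_num
  | succ u hu ih =>
    rw [pow_succ]
    omega

theorem params_pow (x : ℝ) (hx : 0 ≤ x) (a e : ℕ) (h : x ≤ 2 ^ a) : x ^ e ≤ 2 ^ (a * e) := by
  rw [pow_mul]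
  exact pow_le_pow_left₀ hx h e

/-- The parameters of the transcendence proof: for `M` large, `T₀ = 2 M ^ 3`, `T₁ = 2 M`,
`N = M ^ 2` and every `n ≥ N` the arithmetic size is smaller than the `p`-adic one. -/
theorem params (p : ℕ) (hp : 2 ≤ p) (C B : ℝ) (hC : 1 ≤ C) (hB : 1 ≤ B) :
    ∃ M : ℕ, 1 ≤ M ∧ ∀ n : ℕ, M ^ 2 ≤ n → 2 * M ^ 3 ≤ n ^ 2 ∧
      27 * (((2 * M ^ 3 : ℕ) : ℝ) * ((2 * M : ℕ) : ℝ) *
        (C * ((M ^ 2 : ℕ) : ℝ) ^ 2 * (2 * ((M ^ 2 : ℕ) : ℝ)) ^ (2 * M ^ 3) *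
          B ^ (2 * M ^ 2 * (2 * M))) * (2 * (n : ℝ)) ^ (2 * M ^ 3) * B ^ (2 * n * (2 * M))) ^ 6 <
        (p : ℝ) ^ (3 * (n ^ 2 - 2 * M ^ 3)) := by
  obtain ⟨k₁, hk₁⟩ := pow_unbounded_of_one_lt C (one_lt_two : (1 : ℝ) < 2)
  obtain ⟨k₂, hk₂⟩ := pow_unbounded_of_one_lt B (one_lt_two : (1 : ℝ) < 2)
  obtain ⟨k, hkC, hkB⟩ : ∃ k : ℕ, C ≤ 2 ^ k ∧ B ≤ 2 ^ k :=
    ⟨max k₁ k₂, hk₁.le.trans (pow_le_pow_right₀ one_le_two (le_max_left _ _)),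
      hk₂.le.trans (pow_le_pow_right₀ one_le_two (le_max_right _ _))⟩
  refine ⟨2 ^ (k + 10), Nat.one_le_two_pow, ?_⟩
  intro n hn
  set M : ℕ := 2 ^ (k + 10) with hM
  have hM1 : 1 ≤ M := Nat.one_le_two_pow
  set s : ℕ := Nat.sqrt n with hs
  have hMs : M ≤ s := by
    rw [hs, Nat.le_sqrt, ← sq]; exact hn
  have hs1 : s * s ≤ n := Nat.sqrt_le n
  have hs2 : n < (s + 1) * (s + 1) := Nat.lt_succ_sqrt n
  have hs0 : s ≠ 0 := by omega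
  set u : ℕ := Nat.log 2 s with hudef
  have hu1 : 2 ^ u ≤ s := Nat.pow_log_le_self 2 hs0
  have hu2 : s < 2 ^ (u + 1) := Nat.lt_pow_succ_log_self (by norm_num) s
  have hku : k + 10 ≤ u := by
    rw [hudef]
    exact Nat.le_log_of_pow_le (by norm_num) hMs
  have h50 : 50 * u < 2 ^ u := params_fifty u (by omega)
  -- the main bound on `s`
  have hsbig : 96 * u + 155 + 54 * k < 3 * s := by omega
  -- `M ≤ s`, `s * s ≤ n`
  have hMn : M * s ≤ n := (Nat.mul_le_mul_right s hMs).trans hs1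
  have hM3 : M ^ 3 ≤ n * M := by
    calc M ^ 3 = M ^ 2 * M := by ring
      _ ≤ n * M := Nat.mul_le_mul_right M hn
  have hnM : n * M * (96 * u + 155 + 54 * k) < 3 * n ^ 2 := by
    have hn0 : 0 < n * M := by
      have : 0 < n := lt_of_lt_of_le (by positivity) hn
      positivity
    calc n * M * (96 * u + 155 + 54 * k) < n * M * (3 * s) := Nat.mul_lt_mul_of_pos_left hsbig hn0
      _ = 3 * n * (M * s) := by ring
      _ ≤ 3 * n * n := Nat.mul_le_mul_left _ hMn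
      _ = 3 * n ^ 2 := by ring
  have hnMpos : 1 ≤ n * M := by
    have : 0 < n := lt_of_lt_of_le (by positivity) hn
    have : 0 < n * M := by positivity
    omega
  set L : ℕ := 2 * (u + 1) + 1 with hL
  have hL2 : 2 * n ≤ 2 ^ L := by
    have h1 : (s + 1) * (s + 1) ≤ 2 ^ (u + 1) * 2 ^ (u + 1) := Nat.mul_le_mul hu2 hu2
    have h2 : 2 ^ L = 2 * (2 ^ (u + 1) * 2 ^ (u + 1)) := by rw [hL]; ring
    rw [h2]
    omega
  set E : ℕ := L * 2 + (k + L * 2 + L * (2 * M ^ 3) + k * (2 * M ^ 2 * (2 * M))) +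
    L * (2 * M ^ 3) + k * (2 * n * (2 * M)) with hE
  have hE1 : E ≤ 8 * L * (n * M) + 9 * k * (n * M) := by
    have e1 : L * 2 ≤ L * 2 * (n * M) := Nat.le_mul_of_pos_right _ hnMpos
    have e2 : k ≤ k * (n * M) := Nat.le_mul_of_pos_right _ hnMpos
    have e3 : L * (2 * M ^ 3) ≤ L * (2 * (n * M)) :=
      Nat.mul_le_mul_left _ (Nat.mul_le_mul_left _ hM3)
    have e4 : k * (2 * M ^ 2 * (2 * M)) ≤ k * (4 * (n * M)) := by
      refine Nat.mul_le_mul_left _ ?_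
      calc 2 * M ^ 2 * (2 * M) = 4 * M ^ 3 := by ring
        _ ≤ 4 * (n * M) := Nat.mul_le_mul_left _ hM3
    calc E ≤ L * 2 * (n * M) + (k * (n * M) + L * 2 * (n * M) + L * (2 * (n * M)) +
        k * (4 * (n * M))) + L * (2 * (n * M)) + k * (2 * n * (2 * M)) := by
          rw [hE]; gcongr
      _ = 8 * L * (n * M) + 9 * k * (n * M) := by ring
  have hexp : 5 + 6 * E + 6 * M ^ 3 < 3 * n ^ 2 := by
    refine lt_of_le_of_lt ?_ hnM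
    calc 5 + 6 * E + 6 * M ^ 3 ≤ 5 * (n * M) + 6 * (8 * L * (n * M) + 9 * k * (n * M)) +
        6 * (n * M) := by
          have e1 : 5 ≤ 5 * (n * M) := Nat.le_mul_of_pos_right _ hnMpos
          gcongr
      _ = n * M * (96 * u + 155 + 54 * k) := by rw [hL]; ring
  have hexp2 : 5 + 6 * E < 3 * (n ^ 2 - 2 * M ^ 3) := by omega
  refine ⟨by omega, ?_⟩
  -- real estimates
  clear_value M s u L E
  have hnR : 2 * (n : ℝ) ≤ 2 ^ L := by exact_mod_cast hL2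
  have hMnR : ((M ^ 2 : ℕ) : ℝ) ≤ (n : ℝ) := by exact_mod_cast hn
  have hM2L : 2 * ((M ^ 2 : ℕ) : ℝ) ≤ 2 ^ L := le_trans (by linarith) hnR
  have hM2L' : ((M ^ 2 : ℕ) : ℝ) ≤ 2 ^ L := by
    have : (0 : ℝ) ≤ ((M ^ 2 : ℕ) : ℝ) := by positivity
    linarith
  have hB0 : (0 : ℝ) ≤ B := by linarith
  have hC0 : (0 : ℝ) ≤ C := by linarith
  have f1 : ((2 * M ^ 3 : ℕ) : ℝ) * ((2 * M : ℕ) : ℝ) ≤ 2 ^ (L * 2) := by
    have h1 : ((2 * M ^ 3 : ℕ) : ℝ) * ((2 * M : ℕ) : ℝ) =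
        (2 * ((M ^ 2 : ℕ) : ℝ)) ^ 2 := by push_cast; ring
    rw [h1]
    exact params_pow _ (by positivity) _ _ hM2L
  have f2 : ((M ^ 2 : ℕ) : ℝ) ^ 2 ≤ 2 ^ (L * 2) := params_pow _ (by positivity) _ _ hM2L'
  have f3 : (2 * ((M ^ 2 : ℕ) : ℝ)) ^ (2 * M ^ 3) ≤ 2 ^ (L * (2 * M ^ 3)) :=
    params_pow _ (by positivity) _ _ hM2L
  have f4 : B ^ (2 * M ^ 2 * (2 * M)) ≤ 2 ^ (k * (2 * M ^ 2 * (2 * M))) :=
    params_pow _ hB0 _ _ hkB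
  have f5 : (2 * (n : ℝ)) ^ (2 * M ^ 3) ≤ 2 ^ (L * (2 * M ^ 3)) :=
    params_pow _ (by positivity) _ _ hnR
  have f6 : B ^ (2 * n * (2 * M)) ≤ 2 ^ (k * (2 * n * (2 * M))) :=
    params_pow _ hB0 _ _ hkB
  have hin : ((2 * M ^ 3 : ℕ) : ℝ) * ((2 * M : ℕ) : ℝ) *
        (C * ((M ^ 2 : ℕ) : ℝ) ^ 2 * (2 * ((M ^ 2 : ℕ) : ℝ)) ^ (2 * M ^ 3) *
          B ^ (2 * M ^ 2 * (2 * M))) * (2 * (n : ℝ)) ^ (2 * M ^ 3) * B ^ (2 * n * (2 * M)) ≤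
      2 ^ E := by
    have hEeq : (2 : ℝ) ^ E = 2 ^ (L * 2) * (2 ^ k * 2 ^ (L * 2) * 2 ^ (L * (2 * M ^ 3)) *
        2 ^ (k * (2 * M ^ 2 * (2 * M)))) * 2 ^ (L * (2 * M ^ 3)) * 2 ^ (k * (2 * n * (2 * M))) := by
      rw [hE]
      simp only [pow_add]
    rw [hEeq]
    refine mul_le_mul (mul_le_mul (mul_le_mul f1 (mul_le_mul (mul_le_mul (mul_le_mul hkC f2
      (by positivity) (by positivity)) f3 (by positivity) (by positivity)) f4 (by positivity)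
      (by positivity)) (by positivity) (by positivity)) f5 (by positivity) (by positivity)) f6
      (by positivity) (by positivity)
  calc 27 * (((2 * M ^ 3 : ℕ) : ℝ) * ((2 * M : ℕ) : ℝ) *
        (C * ((M ^ 2 : ℕ) : ℝ) ^ 2 * (2 * ((M ^ 2 : ℕ) : ℝ)) ^ (2 * M ^ 3) *
          B ^ (2 * M ^ 2 * (2 * M))) * (2 * (n : ℝ)) ^ (2 * M ^ 3) * B ^ (2 * n * (2 * M))) ^ 6
      ≤ 2 ^ 5 * (2 ^ E) ^ 6 := by
        gcongr
        norm_num
    _ = 2 ^ (5 + 6 * E) := by rw [← pow_mul, ← pow_add]; congr 1; ring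
    _ < 2 ^ (3 * (n ^ 2 - 2 * M ^ 3)) := pow_lt_pow_right₀ (by norm_num) hexp2
    _ ≤ (p : ℝ) ^ (3 * (n ^ 2 - 2 * M ^ 3)) := by
        have : (2 : ℝ) ≤ (p : ℝ) := by exact_mod_cast hp
        gcongr

end Leo

end Pool.Agent.MP_ca7d12_nt
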