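import Pool.Agent.Lib.MP_ca7d12_nt.Leo.Defs
import Pool.Agent.Lib.MP_ca7d12_nt.Leo.XYlem

set_option autoImplicit false

namespace Pool.Agent.MP_ca7d12_nt

namespace Leo

open NumberField

/-- Every complex embedding is one of the real embeddings. -/
theorem sg_emb (K : Type*) [Field K] [NumberField K] (hK : Module.finrank ℚ K = 3)
    (σ : Fin 3 → K →+* ℝ) (hσ : Function.Injective σ) (φ : K →+* ℂ) :
    ∃ l, ∀ x, φ x = ((σ l x : ℝ) : ℂ) := by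
  classical
  have hinj : Function.Injective
      (fun i : Fin 3 => (((Complex.ofRealHom).comp (σ i)).toRatAlgHom : K →ₐ[ℚ] ℂ)) := by
    intro i j hij
    apply hσ
    ext x
    have h1 := congrArg (fun f : K →ₐ[ℚ] ℂ => f x) hij
    simpa using h1
  have hcard : Fintype.card (Fin 3) = Fintype.card (K →ₐ[ℚ] ℂ) := by
    rw [AlgHom.card ℚ K ℂ, hK, Fintype.card_fin]
  have hbij : Function.Bijective
      (fun i : Fin 3 => (((Complex.ofRealHom).comp (σ i)).toRatAlgHom : K →ₐ[ℚ] ℂ)) :=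
    (Fintype.bijective_iff_injective_and_card _).2 ⟨hinj, hcard⟩
  obtain ⟨l, hl⟩ := hbij.2 φ.toRatAlgHom
  refine ⟨l, fun x => ?_⟩
  have h1 := congrArg (fun f : K →ₐ[ℚ] ℂ => f x) hl
  simpa using h1.symm

theorem sg_house_le (K : Type*) [Field K] [NumberField K] (hK : Module.finrank ℚ K = 3)
    (σ : Fin 3 → K →+* ℝ) (hσ : Function.Injective σ) {x : K} {B : ℝ} (hB : 0 ≤ B)
    (h : ∀ l, |σ l x| ≤ B) : house x ≤ B := by
  unfold house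
  rw [pi_norm_le_iff_of_nonneg hB]
  intro φ
  obtain ⟨l, hl⟩ := sg_emb K hK σ hσ φ
  show ‖φ x‖ ≤ B
  rw [hl x, Complex.norm_real, Real.norm_eq_abs]
  exact h l

theorem sg_le_house (K : Type*) [Field K] [NumberField K] (τ : K →+* ℝ) (x : K) :
    |τ x| ≤ house x := by
  have h1 := norm_embedding_le_house x ((Complex.ofRealHom).comp τ)
  have h2 : ‖((Complex.ofRealHom).comp τ) x‖ = |τ x| := by
    show ‖((τ x : ℝ) : ℂ)‖ = _
    rw [Complex.norm_real, Real.norm_eq_abs]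
  rw [h2] at h1
  exact h1

/-- Siegel's lemma: an auxiliary function vanishing on the box of side `n`. -/
theorem siegel (K : Type*) [Field K] [NumberField K] (hK : Module.finrank ℚ K = 3)
    (σ : Fin 3 → K →+* ℝ) (hσ : Function.Injective σ) :
    ∃ C : ℝ, 1 ≤ C ∧ ∀ (τ : 𝓞 K ≃+* 𝓞 K) (U : (𝓞 K)ˣ) (B : ℝ), 1 ≤ B →
      (∀ i, |σ i ((U : 𝓞 K) : K)| ≤ B) → (∀ i, |σ i ((τ (U : 𝓞 K) : 𝓞 K) : K)| ≤ B) →
      ∀ (T₀ T₁ n : ℕ), 1 ≤ n → T₀ * T₁ = 4 * n ^ 2 →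
        ∃ c : Fin T₀ → Fin T₁ → 𝓞 K, c ≠ 0 ∧
          (∀ a < n, ∀ b < n, FX τ U T₀ T₁ c a b = 0) ∧
          (∀ a < n, ∀ b < n, FY τ U T₀ T₁ c a b = 0) ∧
          ∀ i j l, |σ l ((c i j : 𝓞 K) : K)| ≤
            C * (n : ℝ) ^ 2 * (2 * (n : ℝ)) ^ T₀ * B ^ (2 * n * T₁) := by
  classical
  obtain ⟨c₁, hc₁⟩ : ∃ c₁ : ℝ, ∀ (n T₀ T₁ : ℕ)
      (M : Matrix (Bool × Fin n × Fin n) (Fin T₀ × Fin T₁) (𝓞 K)), M ≠ 0 → ∀ {p q : ℕ}, 0 < p →
      p < q → Fintype.card (Fin T₀ × Fin T₁) = q → ∀ {A : ℝ},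
      (∀ k l, house (algebraMap (𝓞 K) K (M k l)) ≤ A) →
      Fintype.card (Bool × Fin n × Fin n) = p → ∃ ξ : Fin T₀ × Fin T₁ → 𝓞 K, ξ ≠ 0 ∧
        M.mulVec ξ = 0 ∧ ∀ l, house (ξ l : K) ≤
          c₁ * (c₁ * (q : ℝ) * A) ^ ((p : ℝ) / ((q : ℝ) - (p : ℝ))) :=
    ⟨_, fun n T₀ T₁ M hM p q hp hpq hq A hA hp' =>
      house.exists_ne_zero_int_vec_house_le K M hM hp hpq hq hA hp'⟩
  refine ⟨max 1 (4 * c₁ ^ 2), le_max_left _ _, ?_⟩
  intro τ U B hB1 hU hτU T₀ T₁ n hn hT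
  have hB0 : (0 : ℝ) ≤ B := by linarith
  have hn2 : 0 < n ^ 2 := pow_pos (by omega) 2
  have hT0 : 0 < T₀ := by
    rcases Nat.eq_zero_or_pos T₀ with h | h
    · rw [h, zero_mul] at hT
      omega
    · exact h
  have hT1 : 0 < T₁ := by
    rcases Nat.eq_zero_or_pos T₁ with h | h
    · rw [h, mul_zero] at hT
      omega
    · exact h
  let M : Matrix (Bool × Fin n × Fin n) (Fin T₀ × Fin T₁) (𝓞 K) := fun k l =>
    ((if k.1 then (XY (k.2.1 : ℕ) (k.2.2 : ℕ) (l.1 : ℕ)).2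
      else (XY (k.2.1 : ℕ) (k.2.2 : ℕ) (l.1 : ℕ)).1 : ℤ) : 𝓞 K) *
      ((U : 𝓞 K) ^ (k.2.1 : ℕ) * (τ (U : 𝓞 K)) ^ (k.2.2 : ℕ)) ^ (l.2 : ℕ)
  have hM0 : M ≠ 0 := by
    intro h
    have h1 := congrFun (congrFun h (false, ⟨0, by omega⟩, ⟨0, by omega⟩)) (⟨0, hT0⟩, ⟨0, hT1⟩)
    simp [M, XY_zero] at h1
  have hUh : house ((U : 𝓞 K) : K) ≤ B := sg_house_le K hK σ hσ hB0 hU
  have hτUh : house ((τ (U : 𝓞 K) : 𝓞 K) : K) ≤ B := sg_house_le K hK σ hσ hB0 hτU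
  have h2n : (1 : ℝ) ≤ 2 * (n : ℝ) := by
    have : (1 : ℝ) ≤ n := by exact_mod_cast hn
    linarith
  have hMb : ∀ k l, house (algebraMap (𝓞 K) K (M k l)) ≤
      (2 * (n : ℝ)) ^ T₀ * B ^ (2 * n * T₁) := by
    rintro ⟨s, x, y⟩ ⟨i, j⟩
    obtain ⟨hb1, hb2⟩ := XY_bound (x : ℕ) (y : ℕ) n (by positivity) (by positivity)
      (by exact_mod_cast x.2.le) (by exact_mod_cast y.2.le) i
    set z : ℤ := if s then (XY (x : ℕ) (y : ℕ) (i : ℕ)).2 else (XY (x : ℕ) (y : ℕ) (i : ℕ)).1 with hz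
    have hzb : |z| ≤ (2 * (n : ℤ)) ^ (i : ℕ) := by
      rw [hz]
      split_ifs
      · exact hb2
      · exact hb1
    have hzb' : |(z : ℝ)| ≤ (2 * (n : ℝ)) ^ T₀ := by
      have h1 : |(z : ℝ)| ≤ (2 * (n : ℝ)) ^ (i : ℕ) := by exact_mod_cast hzb
      exact h1.trans (pow_le_pow_right₀ h2n i.2.le)
    have e1 : algebraMap (𝓞 K) K (M (s, x, y) (i, j)) = (z : K) *
        (((U : 𝓞 K) : K) ^ (x : ℕ) * ((τ (U : 𝓞 K) : 𝓞 K) : K) ^ (y : ℕ)) ^ (j : ℕ) := by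
      show algebraMap (𝓞 K) K ((z : 𝓞 K) *
        ((U : 𝓞 K) ^ (x : ℕ) * (τ (U : 𝓞 K)) ^ (y : ℕ)) ^ (j : ℕ)) = _
      rw [map_mul, map_pow, map_mul, map_pow, map_pow, map_intCast]
    rw [e1]
    refine (house_mul_le _ _).trans ?_
    rw [house_intCast]
    have h3 : house ((((U : 𝓞 K) : K) ^ (x : ℕ) * ((τ (U : 𝓞 K) : 𝓞 K) : K) ^ (y : ℕ)) ^ (j : ℕ)) ≤
        B ^ (2 * n * T₁) := by
      refine (house_pow_le _ _).trans ?_
      have h4 : house (((U : 𝓞 K) : K) ^ (x : ℕ) * ((τ (U : 𝓞 K) : 𝓞 K) : K) ^ (y : ℕ)) ≤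
          B ^ ((x : ℕ) + (y : ℕ)) := by
        refine (house_mul_le _ _).trans ?_
        rw [pow_add]
        refine mul_le_mul ?_ ?_ (house_nonneg _) (pow_nonneg hB0 _)
        · exact (house_pow_le _ _).trans (pow_le_pow_left₀ (house_nonneg _) hUh _)
        · exact (house_pow_le _ _).trans (pow_le_pow_left₀ (house_nonneg _) hτUh _)
      calc house (((U : 𝓞 K) : K) ^ (x : ℕ) * ((τ (U : 𝓞 K) : 𝓞 K) : K) ^ (y : ℕ)) ^ (j : ℕ)
          ≤ (B ^ ((x : ℕ) + (y : ℕ))) ^ (j : ℕ) := pow_le_pow_left₀ (house_nonneg _) h4 _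
        _ = B ^ (((x : ℕ) + (y : ℕ)) * (j : ℕ)) := (pow_mul _ _ _).symm
        _ ≤ B ^ (2 * n * T₁) := by
            refine pow_le_pow_right₀ hB1 (Nat.mul_le_mul ?_ j.2.le)
            have := x.2
            have := y.2
            omega
    push_cast
    exact mul_le_mul hzb' h3 (house_nonneg _) (by positivity)
  have hcβ : Fintype.card (Fin T₀ × Fin T₁) = 4 * n ^ 2 := by
    rw [Fintype.card_prod, Fintype.card_fin, Fintype.card_fin, hT]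
  have hcα : Fintype.card (Bool × Fin n × Fin n) = 2 * n ^ 2 := by
    rw [Fintype.card_prod, Fintype.card_prod, Fintype.card_fin, Fintype.card_bool]
    ring
  obtain ⟨ξ, hξ0, hξ, hξb⟩ := hc₁ n T₀ T₁ M hM0 (by omega) (by omega) hcβ hMb hcα
  have hexp : (((2 * n ^ 2 : ℕ) : ℝ)) / (((4 * n ^ 2 : ℕ) : ℝ) - ((2 * n ^ 2 : ℕ) : ℝ)) = 1 := by
    have : (0 : ℝ) < (n : ℝ) ^ 2 := by exact_mod_cast hn2
    push_cast
    rw [div_eq_one_iff_eq (by linarith)]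
    ring
  rw [hexp] at hξb
  simp only [Real.rpow_one] at hξb
  refine ⟨fun i j => ξ (i, j), ?_, ?_, ?_, ?_⟩
  · intro h
    apply hξ0
    funext l
    exact congrFun (congrFun h l.1) l.2
  · intro x hx y hy
    have h1 := congrFun hξ (false, ⟨x, hx⟩, ⟨y, hy⟩)
    rw [Matrix.mulVec, dotProduct, Fintype.sum_prod_type] at h1
    unfold FX
    rw [Pi.zero_apply] at h1
    rw [← h1]
    refine Finset.sum_congr rfl fun i _ => Finset.sum_congr rfl fun j _ => ?_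
    simp only [M, Bool.false_eq_true, if_false]
    ring
  · intro x hx y hy
    have h1 := congrFun hξ (true, ⟨x, hx⟩, ⟨y, hy⟩)
    rw [Matrix.mulVec, dotProduct, Fintype.sum_prod_type] at h1
    unfold FY
    rw [Pi.zero_apply] at h1
    rw [← h1]
    refine Finset.sum_congr rfl fun i _ => Finset.sum_congr rfl fun j _ => ?_
    simp only [M, if_true]
    ring
  · intro i j l
    refine (sg_le_house K (σ l) _).trans ((hξb (i, j)).trans ?_)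
    have h1 : c₁ * (c₁ * ((4 * n ^ 2 : ℕ) : ℝ) * ((2 * (n : ℝ)) ^ T₀ * B ^ (2 * n * T₁))) =
        4 * c₁ ^ 2 * (n : ℝ) ^ 2 * (2 * (n : ℝ)) ^ T₀ * B ^ (2 * n * T₁) := by
      push_cast
      ring
    rw [h1]
    have h2 : 4 * c₁ ^ 2 ≤ max 1 (4 * c₁ ^ 2) := le_max_right _ _
    gcongr

end Leo

end Pool.Agent.MP_ca7d12_nt
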