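import Pool.Agent.Lib.MP_ca7d12_nt.Leo.PadicSmall
import Pool.Agent.Lib.MP_ca7d12_nt.Leo.ExistsU
import Pool.Agent.Lib.MP_ca7d12_nt.Leo.TorsionFree
import Pool.Agent.Lib.MP_ca7d12_nt.Leo.Liouville
import Pool.Agent.Lib.MP_ca7d12_nt.Leo.Siegel
import Pool.Agent.Lib.MP_ca7d12_nt.Leo.ArchBound
import Pool.Agent.Lib.MP_ca7d12_nt.Leo.LinIndep
import Pool.Agent.Lib.MP_ca7d12_nt.Leo.Params

set_option autoImplicit false

namespace Pool.Agent.MP_ca7d12_nt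

namespace Leo

open NumberField

theorem XY_b_zero (a : ℤ) (i : ℕ) : XY a 0 i = (a ^ i, 0) := by
  induction i with
  | zero => simp [XY_zero]
  | succ i ih => rw [XY_succ, ih]; simp [pow_succ']

theorem pow_inj_of_not_int (K : Type*) [Field K] [NumberField K] (s : K →+* ℝ) (U : (𝓞 K)ˣ)
    (hU : ∀ c : ℤ, (U : 𝓞 K) ≠ (c : 𝓞 K)) :
    ∀ m n : ℕ, (U : 𝓞 K) ^ m = (U : 𝓞 K) ^ n → m = n := by
  have key : ∀ m n : ℕ, m < n → (U : 𝓞 K) ^ m = (U : 𝓞 K) ^ n → False := by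
    intro m n hmn h
    obtain ⟨k, rfl⟩ := Nat.exists_eq_add_of_lt hmn
    have h1 : (U : 𝓞 K) ^ m * 1 = (U : 𝓞 K) ^ m * (U : 𝓞 K) ^ (k + 1) := by
      rw [mul_one, ← pow_add]
      rw [h]
      congr 1
    have h2 : (1 : 𝓞 K) = (U : 𝓞 K) ^ (k + 1) :=
      mul_left_cancel₀ (pow_ne_zero _ (Units.ne_zero U)) h1
    obtain ⟨c, hc⟩ := int_of_pow_int K s U (k + 1) (Nat.succ_pos k) 1 (by
      rw [Units.val_pow_eq_pow_val, ← h2]; simp)
    exact hU c hc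
  intro m n h
  rcases lt_trichotomy m n with h1 | h1 | h1
  · exact (key m n h1 h).elim
  · exact h1
  · exact (key n m h1 h.symm).elim

/-- The transcendence statement (Schneider's method, `p`-adic): the units `η ^ (π ^ j)` are not all
congruent to integers modulo `p ^ j`. -/
theorem schneider (K : Type*) [Field K] [NumberField K] (hK : Module.finrank ℚ K = 3)
    (σ : Fin 3 → K →+* ℝ) (hσ : Function.Injective σ)
    (τ : 𝓞 K ≃+* 𝓞 K) (hτ : ∀ x, τ (τ (τ x)) = x) (p : ℕ) (hp : p.Prime) (hp3 : p % 3 = 1)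
    (x y : ℤ) (hxy : x ^ 2 - x * y + y ^ 2 = p) (η : (𝓞 K)ˣ) (hη : ∀ c : ℤ, (η : 𝓞 K) ≠ (c : 𝓞 K))
    (hN : NormOne τ η) :
    ¬ ∀ j : ℕ, ∃ (c : ℤ) (w : 𝓞 K),
      (upow τ η (XY x y j).1 (XY x y j).2 : 𝓞 K) = (c : 𝓞 K) + (p : 𝓞 K) ^ j * w := by
  intro h
  obtain ⟨U, hNU, hUZ, hU2, hU⟩ := exists_U K (σ 0) τ hτ p hp hp3 x y hxy η hη hN h
  set B : ℝ := 1 + ∑ i, (|σ i ((U : 𝓞 K) : K)| + |σ i ((τ (U : 𝓞 K) : 𝓞 K) : K)|) with hBdef
  have hsum : ∀ i, |σ i ((U : 𝓞 K) : K)| + |σ i ((τ (U : 𝓞 K) : 𝓞 K) : K)| ≤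
      ∑ i, (|σ i ((U : 𝓞 K) : K)| + |σ i ((τ (U : 𝓞 K) : 𝓞 K) : K)|) := by
    intro i
    exact Finset.single_le_sum (f := fun i => |σ i ((U : 𝓞 K) : K)| +
      |σ i ((τ (U : 𝓞 K) : 𝓞 K) : K)|) (fun j _ => by positivity) (Finset.mem_univ i)
  have hB : 1 ≤ B := by
    rw [hBdef]
    have : 0 ≤ ∑ i, (|σ i ((U : 𝓞 K) : K)| + |σ i ((τ (U : 𝓞 K) : 𝓞 K) : K)|) :=
      Finset.sum_nonneg fun i _ => by positivity
    linarith
  have hBU : ∀ i, |σ i ((U : 𝓞 K) : K)| ≤ B := fun i => by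
    have := hsum i
    have h0 := abs_nonneg (σ i ((τ (U : 𝓞 K) : 𝓞 K) : K))
    rw [hBdef]; linarith
  have hBτ : ∀ i, |σ i ((τ (U : 𝓞 K) : 𝓞 K) : K)| ≤ B := fun i => by
    have := hsum i
    have h0 := abs_nonneg (σ i ((U : 𝓞 K) : K))
    rw [hBdef]; linarith
  obtain ⟨C, hC, hS⟩ := siegel K hK σ hσ
  obtain ⟨M, hM, hpar⟩ := params p hp.two_le C B hC hB
  obtain ⟨c, hc0, hX, hY, hcb⟩ := hS τ U B hB hBU hBτ (2 * M ^ 3) (2 * M) (M ^ 2)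
    (Nat.one_le_pow _ _ hM) (by ring)
  have hbox : ∀ n : ℕ, M ^ 2 ≤ n → (∀ a < n, ∀ b < n, FX τ U (2 * M ^ 3) (2 * M) c a b = 0) ∧
      (∀ a < n, ∀ b < n, FY τ U (2 * M ^ 3) (2 * M) c a b = 0) := by
    intro n hn
    induction n, hn using Nat.le_induction with
    | base => exact ⟨hX, hY⟩
    | succ n hn ih =>
      obtain ⟨hX', hY'⟩ := ih
      obtain ⟨h1, h2⟩ := hpar n hn
      have hn1 : 1 ≤ n := le_trans (Nat.one_le_pow _ _ hM) hn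
      have main : ∀ a < n + 1, ∀ b < n + 1, FX τ U (2 * M ^ 3) (2 * M) c a b = 0 ∧
          FY τ U (2 * M ^ 3) (2 * M) c a b = 0 := by
        intro a ha b hb
        have h3 := padic_small τ hτ p hp hp3 x y hxy U hNU hU2 hU (2 * M ^ 3) (2 * M) c n hX' hY'
          (n ^ 2 - 2 * M ^ 3) (by omega) a b
        have h4 := fun i => arch_bound K (σ i) τ U B hB (hBU i) (hBτ i) (2 * M ^ 3) (2 * M) n hn1 c _
          (fun i' j' => hcb i' j' i) a b (by omega) (by omega)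
        refine liouville K hK σ hσ p hp (n ^ 2 - 2 * M ^ 3) _ _ h3 _ ?_ (fun i => (h4 i).1)
          (fun i => (h4 i).2) h2
        positivity
      exact ⟨fun a ha b hb => (main a ha b hb).1, fun a ha b hb => (main a ha b hb).2⟩
  apply hc0
  refine linindep (U : 𝓞 K) (pow_inj_of_not_int K (σ 0) U hUZ) (2 * M ^ 3) (2 * M) c ?_
  intro a
  have h1 := (hbox (a + 1 + M ^ 2) (by omega)).1 a (by omega) 0 (by omega)
  rw [FX] at h1
  rw [← h1]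
  refine Finset.sum_congr rfl fun i _ => Finset.sum_congr rfl fun j _ => ?_
  have h2 := XY_b_zero (a : ℤ) (i : ℕ)
  rw [Nat.cast_zero, h2]
  push_cast
  ring

end Leo

end Pool.Agent.MP_ca7d12_nt
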